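import Mathlib

set_option autoImplicit false

namespace Pool.Agent.P.MP_9a799e_nt

open Finset

open Classical in
/-- residues mod `2 s ^ N`, prime to `s`, that pass the first `N` tests -/
noncomputable def surv (s N : ℕ) : Finset ℕ :=
  (range (2 * s ^ N)).filter fun r =>
    Nat.Coprime r s ∧ ∀ n ∈ Icc 1 N, s ^ n ≤ r ^ n % (2 * s ^ n)

lemma mem_surv {s N r : ℕ} : r ∈ surv s N ↔ r < 2 * s ^ N ∧
    Nat.Coprime r s ∧ ∀ n ∈ Icc 1 N, s ^ n ≤ r ^ n % (2 * s ^ n) := by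
  simp only [surv, mem_filter, mem_range]

def kk (s n : ℕ) : ℕ := if s.Coprime n then s - s / 2 else s

lemma pow_mod_congr {r a s n N : ℕ} (h : r ≡ a [MOD 2 * s ^ N]) (hn : n ≤ N) :
    r ^ n % (2 * s ^ n) = a ^ n % (2 * s ^ n) := by
  have : r ≡ a [MOD 2 * s ^ n] :=
    h.of_dvd (Nat.mul_dvd_mul_left 2 (pow_dvd_pow s hn))
  exact this.pow n

lemma mod_mem_surv {s N r : ℕ} (hs : 0 < s) (hc : N = 0 ∨ Nat.Coprime r s) (hc' : N = 0 → Nat.Coprime (r % 2) s)
    (h : ∀ n ∈ Icc 1 N, s ^ n ≤ r ^ n % (2 * s ^ n)) : r % (2 * s ^ N) ∈ surv s N := by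
  rw [mem_surv]
  refine ⟨Nat.mod_lt _ (by positivity), ?_, ?_⟩
  · rcases Nat.eq_zero_or_pos N with h0 | h0
    · subst h0; simpa using hc' rfl
    · have hc := hc.resolve_left h0.ne'
      have hd : s ∣ 2 * s ^ N := Dvd.dvd.mul_left (dvd_pow_self s h0.ne') 2
      have : r % (2 * s ^ N) % s = r % s := Nat.mod_mod_of_dvd r hd
      rw [Nat.Coprime, Nat.gcd_comm, Nat.gcd_rec, this, ← Nat.gcd_rec, Nat.gcd_comm]
      exact hc
  · intro n hn
    rw [pow_mod_congr (Nat.mod_modEq r (2 * s ^ N)) (mem_Icc.1 hn).2]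
    exact h n hn

lemma inj_aux {s N r r' : ℕ} (hs : 0 < s) (hN : 1 ≤ N) (hc : Nat.Coprime r s)
    (hn : s.Coprime (N + 1)) (h1 : r ≡ r' [MOD 2 * s ^ N])
    (h2 : r ^ (N + 1) ≡ r' ^ (N + 1) [MOD 2 * s ^ (N + 1)]) : r ≡ r' [MOD 2 * s ^ (N + 1)] := by
  have h1' := (Nat.modEq_iff_dvd.1 h1)
  have h2' := (Nat.modEq_iff_dvd.1 h2)
  obtain ⟨d, hd⟩ := h1'
  rw [Nat.modEq_iff_dvd]
  push_cast at hd h2' ⊢
  have e : (r' : ℤ) = r + 2 * (s : ℤ) ^ N * d := by linarith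
  have h3 := sq_dvd_add_pow_sub_sub (2 * (s : ℤ) ^ N * d) (r : ℤ) (N + 1)
  rw [← e] at h3
  have h4 : 2 * (s : ℤ) ^ (N + 1) ∣ (2 * (s : ℤ) ^ N * d) ^ 2 := by
    obtain ⟨M, rfl⟩ : ∃ M, N = M + 1 := ⟨N - 1, by omega⟩
    exact ⟨2 * s ^ M * d ^ 2, by ring⟩
  have h5 := (dvd_sub h2' (h4.trans h3))
  have h6 : (r' : ℤ) ^ (N + 1) - r ^ (N + 1) -
      (r' ^ (N + 1) - r ^ (N + 1 - 1) * (2 * (s : ℤ) ^ N * d) * ((N + 1 : ℕ) : ℤ) - r ^ (N + 1))
      = (2 * s ^ N) * (r ^ N * ((N + 1 : ℕ) : ℤ) * d) := by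
    simp only [Nat.add_sub_cancel]; ring
  rw [h6, show 2 * (s : ℤ) ^ (N + 1) = (2 * s ^ N) * s by ring] at h5
  have hpos : (2 * (s : ℤ) ^ N) ≠ 0 := by positivity
  have h7 := (mul_dvd_mul_iff_left hpos).1 h5
  have hcop : IsCoprime (s : ℤ) ((r : ℤ) ^ N * ((N + 1 : ℕ) : ℤ)) := by
    apply IsCoprime.mul_right
    · exact (Nat.isCoprime_iff_coprime.2 hc.symm).pow_right
    · exact Nat.isCoprime_iff_coprime.2 hn
  obtain ⟨e', he'⟩ := hcop.dvd_of_dvd_mul_left h7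
  exact ⟨e', by rw [hd, he']; ring⟩

lemma eq_of_div_mod {M x y : ℕ} (h1 : x / M = y / M) (h2 : x % M = y % M) : x = y := by
  rw [← Nat.div_add_mod x M, ← Nat.div_add_mod y M, h1, h2]

lemma step {s N : ℕ} (hs : 0 < s) (hN : 1 ≤ N) :
    (surv s (N + 1)).card ≤ kk s (N + 1) * (surv s N).card := by
  apply Finset.card_le_mul_card_image_of_maps_to (f := fun r => r % (2 * s ^ N))
  · intro r hr
    rw [mem_surv] at hr
    exact mod_mem_surv hs (Or.inr hr.2.1) (fun h => by omega)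
      fun n hn => hr.2.2 n (mem_Icc.2 ⟨(mem_Icc.1 hn).1, (mem_Icc.1 hn).2.trans (Nat.le_succ _)⟩)
  · intro a _
    have hM : 0 < 2 * s ^ N := by positivity
    have eM : 2 * s ^ (N + 1) = 2 * s ^ N * s := by ring
    unfold kk
    split_ifs with hc
    · rw [← Nat.card_Ico]
      apply card_le_card_of_injOn (fun r => r ^ (N + 1) % (2 * s ^ (N + 1)) / (2 * s ^ N))
      · intro r hr
        simp only [coe_filter, mem_surv, Set.mem_ofPred_eq] at hr
        have h1 := hr.1.2.2 (N + 1) (mem_Icc.2 ⟨by omega, le_rfl⟩)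
        simp only [coe_Ico, Set.mem_Ico]
        constructor
        · rw [Nat.le_div_iff_mul_le hM]
          refine le_trans ?_ h1
          calc s / 2 * (2 * s ^ N) = (s / 2 * 2) * s ^ N := by ring
            _ ≤ s * s ^ N := Nat.mul_le_mul_right _ (Nat.div_mul_le_self s 2)
            _ = s ^ (N + 1) := by ring
        · rw [Nat.div_lt_iff_lt_mul hM, mul_comm s, ← eM]
          exact Nat.mod_lt _ (by positivity)
      · intro r hr r' hr' h
        simp only [coe_filter, mem_surv, Set.mem_ofPred_eq] at hr hr'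
        have h1 : r ≡ r' [MOD 2 * s ^ N] := hr.2.trans hr'.2.symm
        have h2 : r ^ (N + 1) ≡ r' ^ (N + 1) [MOD 2 * s ^ (N + 1)] := by
          apply eq_of_div_mod h
          rw [Nat.mod_mod_of_dvd _ ⟨s, eM⟩, Nat.mod_mod_of_dvd _ ⟨s, eM⟩]
          exact h1.pow _
        exact Nat.ModEq.eq_of_lt_of_lt (inj_aux hs hN hr.1.2.1 hc h1 h2) hr.1.1 hr'.1.1
    · conv_rhs => rw [← card_range s]
      apply card_le_card_of_injOn (fun r => r / (2 * s ^ N))
      · intro r hr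
        simp only [coe_filter, mem_surv, Set.mem_ofPred_eq] at hr
        simp only [coe_range, Set.mem_Iio]
        rw [Nat.div_lt_iff_lt_mul hM, mul_comm s, ← eM]
        exact hr.1.1
      · intro r hr r' hr' h
        simp only [coe_filter, mem_surv, Set.mem_ofPred_eq] at hr hr'
        exact eq_of_div_mod h (hr.2.trans hr'.2.symm)

lemma card_one {s : ℕ} (hs : 0 < s) : (surv s 1).card ≤ 2 * kk s 1 := by
  have : surv s 1 ⊆ Ico s (2 * s) := by
    intro r hr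
    simp only [surv, mem_filter, mem_range, pow_one] at hr
    have h1 := hr.2.2 1 (by simp)
    simp only [pow_one] at h1
    rw [Nat.mod_eq_of_lt hr.1] at h1
    exact mem_Ico.2 ⟨h1, hr.1⟩
  refine (card_le_card this).trans ?_
  rw [Nat.card_Ico]
  unfold kk
  simp only [Nat.coprime_one_right_eq_true, if_true]
  omega

lemma card_le_prod {s : ℕ} (hs : 0 < s) (N : ℕ) :
    (surv s N).card ≤ 2 * ∏ n ∈ Ico 1 (N + 1), kk s n := by
  induction N with
  | zero =>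
    simp only [zero_add, Ico_self, prod_empty, mul_one]
    have : surv s 0 ⊆ range 2 := fun r hr => by simpa using (mem_surv.1 hr).1
    simpa using card_le_card this
  | succ N ih =>
    rcases Nat.eq_zero_or_pos N with h | h
    · subst h; simpa using card_one hs
    · rw [prod_Ico_succ_top (by omega)]
      calc _ ≤ kk s (N + 1) * (surv s N).card := step hs h
        _ ≤ kk s (N + 1) * (2 * ∏ n ∈ Ico 1 (N + 1), kk s n) := Nat.mul_le_mul_left _ ih
        _ = _ := by ring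

lemma prod_block (s a : ℕ) :
    ∏ n ∈ Ico a (a + s), kk s n = (s - s / 2) ^ s.totient * s ^ (s - s.totient) := by
  unfold kk
  rw [prod_ite, prod_const, prod_const, Nat.filter_coprime_Ico_eq_totient]
  congr 2
  have := card_filter_add_card_filter_not (s := Ico a (a + s)) (fun n => s.Coprime n)
  rw [Nat.filter_coprime_Ico_eq_totient, Nat.card_Ico] at this
  omega

lemma prod_blocks (s j : ℕ) :
    ∏ n ∈ Ico 1 (s * j + 1), kk s n = ((s - s / 2) ^ s.totient * s ^ (s - s.totient)) ^ j := by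
  induction j with
  | zero => simp
  | succ j ih =>
    rw [← prod_Ico_consecutive _ (m := 1) (n := s * j + 1) (by omega) (by nlinarith), ih,
      show s * (j + 1) + 1 = s * j + 1 + s by ring, prod_block, pow_succ]

lemma test_of_odd {r s n : ℕ} (h : Odd ⌊((r : ℚ) / s) ^ n⌋) :
    s ^ n ≤ r ^ n % (2 * s ^ n) := by
  have e : ⌊((r : ℚ) / s) ^ n⌋ = ((r ^ n / s ^ n : ℕ) : ℤ) := by
    rw [div_pow, ← Nat.cast_pow, ← Nat.cast_pow, Rat.floor_natCast_div_natCast]
    simp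
  rw [e, Int.odd_coe_nat, Nat.odd_iff, ← Nat.mod_mul_right_div_self] at h
  by_contra hlt
  rw [mul_comm, Nat.div_eq_of_lt (by omega)] at h
  omega

theorem count_nat {s : ℕ} (hs : 0 < s) (X j : ℕ) :
    {r : ℕ | r ≤ X ∧ r.Coprime s ∧ ∀ n : ℕ, 1 ≤ n → Odd ⌊((r : ℚ) / s) ^ n⌋}.ncard ≤
      (X / (2 * s ^ (s * (j + 1))) + 1) *
        (2 * ((s - s / 2) ^ s.totient * s ^ (s - s.totient)) ^ (j + 1)) := by
  set M := 2 * s ^ (s * (j + 1)) with hM
  rw [← prod_blocks]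
  refine le_trans ?_ (Nat.mul_le_mul_left _ (card_le_prod hs (s * (j + 1))))
  rw [← card_range (X / M + 1), ← card_product, ← Set.ncard_coe_finset]
  apply Set.ncard_le_ncard_of_injOn (fun r => (r / M, r % M))
  · rintro r ⟨h1, h2, h3⟩
    simp only [coe_product, coe_range, Set.mem_prod, Set.mem_Iio, mem_coe]
    refine ⟨Nat.lt_succ_of_le (Nat.div_le_div_right h1), ?_⟩
    exact mod_mem_surv hs (Or.inr h2) (fun h => by exfalso; nlinarith)
      fun n hn => test_of_odd (h3 n (mem_Icc.1 hn).1)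
  · intro r _ r' _ h
    simp only [Prod.mk.injEq] at h
    exact eq_of_div_mod h.1 h.2

lemma theta_eq {s : ℕ} (hs : 2 ≤ s) :
    (((s - s / 2) ^ s.totient * s ^ (s - s.totient) : ℕ) : ℝ) =
      ((s : ℝ) ^ s) ^ (1 - (s.totient : ℝ) / s * Real.log (s / (s - s / 2 : ℕ)) / Real.log s) := by
  have hs0 : (0 : ℝ) < s := by exact_mod_cast (by omega : 0 < s)
  have hs1 : (1 : ℝ) < s := by exact_mod_cast (by omega : 1 < s)
  have hc : (0 : ℝ) < (s - s / 2 : ℕ) := by exact_mod_cast (by omega : 0 < s - s / 2)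
  have hl : Real.log s ≠ 0 := (Real.log_pos hs1).ne'
  have ht : s.totient ≤ s := Nat.totient_le s
  generalize s - s / 2 = c at hc ⊢
  apply Real.log_injOn_pos
  · simp only [Set.mem_Ioi]; push_cast; positivity
  · simp only [Set.mem_Ioi]; positivity
  rw [Real.log_rpow (by positivity)]
  push_cast
  rw [Real.log_mul (by positivity) (by positivity), Real.log_pow, Real.log_pow, Real.log_pow,
    Real.log_div hs0.ne' hc.ne', Nat.cast_sub ht]
  field_simp
  ring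

lemma theta_lt {s : ℕ} (hs : 2 ≤ s) :
    1 - (s.totient : ℝ) / s * Real.log (s / (s - s / 2 : ℕ)) / Real.log s < 1 := by
  have hs0 : (0 : ℝ) < s := by exact_mod_cast (by omega : 0 < s)
  have hs1 : (1 : ℝ) < s := by exact_mod_cast (by omega : 1 < s)
  have hc : (0 : ℝ) < (s - s / 2 : ℕ) := by exact_mod_cast (by omega : 0 < s - s / 2)
  have hc' : ((s - s / 2 : ℕ) : ℝ) < s := by exact_mod_cast (by omega : s - s / 2 < s)
  have ht : (0 : ℝ) < s.totient := by exact_mod_cast Nat.totient_pos.2 (by omega)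
  have h1 := Real.log_pos hs1
  have h2 : 0 < Real.log (s / (s - s / 2 : ℕ)) := Real.log_pos ((one_lt_div hc).2 hc')
  have : 0 < (s.totient : ℝ) / s * Real.log (s / (s - s / 2 : ℕ)) / Real.log s := by positivity
  linarith

lemma theta_nonneg {s : ℕ} (hs : 2 ≤ s) :
    0 ≤ 1 - (s.totient : ℝ) / s * Real.log (s / (s - s / 2 : ℕ)) / Real.log s := by
  have hs0 : (0 : ℝ) < s := by exact_mod_cast (by omega : 0 < s)
  have hs1 : (1 : ℝ) < s := by exact_mod_cast (by omega : 1 < s)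
  have hc : (1 : ℝ) ≤ (s - s / 2 : ℕ) := by exact_mod_cast (by omega : 1 ≤ s - s / 2)
  have ht : (s.totient : ℝ) ≤ s := by exact_mod_cast Nat.totient_le s
  have h1 := Real.log_pos hs1
  have h2 : Real.log (s / (s - s / 2 : ℕ)) ≤ Real.log s :=
    Real.log_le_log (by positivity) (div_le_self hs0.le hc)
  have h3 : (s.totient : ℝ) / s ≤ 1 := (div_le_one hs0).2 ht
  have h4 : (s.totient : ℝ) / s * Real.log (s / (s - s / 2 : ℕ)) ≤ 1 * Real.log s :=
    calc _ ≤ (s.totient : ℝ) / s * Real.log s := by gcongr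
      _ ≤ _ := by gcongr
  rw [sub_nonneg, div_le_one h1]
  linarith

theorem count_real {s : ℕ} (hs : 2 ≤ s) (X : ℕ) (hX : 1 ≤ X) :
    ({r : ℕ | r ≤ X ∧ r.Coprime s ∧ ∀ n : ℕ, 1 ≤ n → Odd ⌊((r : ℚ) / s) ^ n⌋}.ncard : ℝ) ≤
      2 * (s : ℝ) ^ s *
        (X : ℝ) ^ (1 - (s.totient : ℝ) / s * Real.log (s / (s - s / 2 : ℕ)) / Real.log s) := by
  have hθ0 := theta_nonneg hs
  have hθ1 := theta_lt hs
  have hb : 1 < s ^ s := Nat.one_lt_pow (by omega) (by omega)
  set j := Nat.log (s ^ s) X with hj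
  have h1 : (s ^ s) ^ j ≤ X := Nat.pow_log_le_self _ (by omega)
  have h2 : X < (s ^ s) ^ (j + 1) := Nat.lt_pow_succ_log_self hb _
  have h3 := count_nat (s := s) (by omega) X j
  have h4 : X / (2 * s ^ (s * (j + 1))) = 0 := by
    apply Nat.div_eq_of_lt
    rw [pow_mul]; omega
  rw [h4, zero_add, one_mul] at h3
  have h5 := (Nat.cast_le (α := ℝ)).2 h3
  refine h5.trans ?_
  rw [Nat.cast_mul, Nat.cast_pow, theta_eq hs]
  generalize 1 - (s.totient : ℝ) / s * Real.log (s / (s - s / 2 : ℕ)) / Real.log s = θ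
    at hθ0 hθ1 ⊢
  have hb' : (1 : ℝ) ≤ (s : ℝ) ^ s := by exact_mod_cast hb.le
  have h6 : (((s : ℝ) ^ s) ^ θ) ^ j ≤ (X : ℝ) ^ θ := by
    rw [← Real.rpow_natCast, ← Real.rpow_mul (by positivity), mul_comm,
      Real.rpow_mul (by positivity), Real.rpow_natCast]
    apply Real.rpow_le_rpow (by positivity) _ hθ0
    exact_mod_cast h1
  have h7 : ((s : ℝ) ^ s) ^ θ ≤ (s : ℝ) ^ s := by
    calc _ ≤ ((s : ℝ) ^ s) ^ (1 : ℝ) := Real.rpow_le_rpow_of_exponent_le hb' hθ1.le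
      _ = _ := Real.rpow_one _
  have h8 : (0 : ℝ) ≤ (X : ℝ) ^ θ := by positivity
  rw [pow_succ]
  push_cast
  have h9 : (((s : ℝ) ^ s) ^ θ) ^ j * ((s : ℝ) ^ s) ^ θ ≤ (X : ℝ) ^ θ * (s : ℝ) ^ s :=
    mul_le_mul h6 h7 (by positivity) h8
  have h10 : 0 ≤ (X : ℝ) ^ θ * (s : ℝ) ^ s := by positivity
  nlinarith

end Pool.Agent.P.MP_9a799e_nt
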