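import Pool.Agent.P.MP_9a799e_nt.ZDefs

/-! Basic properties of the sums over tuples of words. -/

set_option autoImplicit false

namespace Pool.Agent.P.MP_9a799e_nt.Z

section F
variable {R : Type} [AddCommMonoid R]

theorem F_zero (L : List (Finset ℤ × ℤ)) : F L (fun _ => (0 : R)) = 0 := by
  induction L with
  | nil => rfl
  | cons a L ih => simp [F, ih]

theorem F_add (L : List (Finset ℤ × ℤ)) (φ ψ : ℤ → R) :
    F L (fun z => φ z + ψ z) = F L φ + F L ψ := by
  induction L generalizing φ ψ with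
  | nil => rfl
  | cons a L ih =>
    simp only [F]
    rw [← Finset.sum_add_distrib]
    exact Finset.sum_congr rfl fun c _ => ih _ _

theorem F_sum {ι : Type} (L : List (Finset ℤ × ℤ)) (s : Finset ι) (φ : ι → ℤ → R) :
    F L (fun z => ∑ i ∈ s, φ i z) = ∑ i ∈ s, F L (φ i) := by
  induction L generalizing φ with
  | nil => rfl
  | cons a L ih =>
    simp only [F]
    rw [Finset.sum_comm]
    exact Finset.sum_congr rfl fun c _ => ih _

theorem F_map {R' : Type} [AddCommMonoid R'] (f : R →+ R') (L : List (Finset ℤ × ℤ))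
    (φ : ℤ → R) : f (F L φ) = F L fun z => f (φ z) := by
  induction L generalizing φ with
  | nil => rfl
  | cons a L ih =>
    simp only [F]
    rw [map_sum]
    exact Finset.sum_congr rfl fun c _ => ih _

theorem F_append (L M : List (Finset ℤ × ℤ)) (φ : ℤ → R) :
    F (L ++ M) φ = F L fun x => F M fun y => φ (x + y) := by
  induction L generalizing φ with
  | nil => simp [F]
  | cons a L ih =>
    simp only [F, List.cons_append]
    refine Finset.sum_congr rfl fun c _ => ?_
    rw [ih]
    simp only [add_assoc]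

theorem F_perm {L M : List (Finset ℤ × ℤ)} (h : L.Perm M) (φ : ℤ → R) : F L φ = F M φ := by
  induction h generalizing φ with
  | nil => rfl
  | cons a _ ih => simp only [F]; exact Finset.sum_congr rfl fun c _ => ih _
  | swap a b L =>
    simp only [F]
    rw [Finset.sum_comm]
    refine Finset.sum_congr rfl fun c _ => Finset.sum_congr rfl fun d _ => ?_
    congr 1
    funext z
    congr 1
    ring
  | trans _ _ ih1 ih2 => rw [ih1, ih2]

theorem F_scale (L : List (Finset ℤ × ℤ)) (η : ℤ) (φ : ℤ → R) :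
    F (L.map fun a => (a.1, η * a.2)) φ = F L fun z => φ (η * z) := by
  induction L generalizing φ with
  | nil => simp [F]
  | cons a L ih =>
    simp only [F, List.map_cons]
    refine Finset.sum_congr rfl fun c _ => ?_
    rw [ih]
    congr 1
    funext z
    congr 1
    ring

end F

theorem F_mono (L : List (Finset ℤ × ℤ)) (φ ψ : ℤ → ℕ) (h : ∀ z, φ z ≤ ψ z) :
    F L φ ≤ F L ψ := by
  induction L generalizing φ ψ with
  | nil => exact h 0
  | cons a L ih =>
    simp only [F]
    exact Finset.sum_le_sum fun c _ => ih _ _ fun z => h _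

theorem F_mul (L : List (Finset ℤ × ℤ)) (k : ℕ) (φ : ℤ → ℕ) :
    F L (fun z => k * φ z) = k * F L φ := by
  have := F_map (AddMonoidHom.mulLeft k) L φ
  simpa using this.symm

theorem F_char (L : List (Finset ℤ × ℤ)) (χ : ℤ → ℂ) (h0 : χ 0 = 1)
    (h : ∀ x y, χ (x + y) = χ x * χ y) :
    F L χ = (L.map fun a => ∑ c ∈ a.1, χ (a.2 * c)).prod := by
  induction L with
  | nil => simp [F, h0]
  | cons a L ih =>
    simp only [F, List.map_cons, List.prod_cons]
    rw [Finset.sum_mul]
    refine Finset.sum_congr rfl fun c _ => ?_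
    have := F_map (AddMonoidHom.mulLeft (χ (a.2 * c))) L χ
    simp only [AddMonoidHom.coe_mulLeft] at this
    rw [← ih, this]
    congr 1
    funext z
    exact h _ _

theorem sum_C {R : Type} [AddCommMonoid R] (l s : ℕ) (φ : ℤ → R) :
    ∑ c ∈ C (l + 1) s, φ c = ∑ c ∈ C l (nx s), φ (2 * c) +
      bif ok s then ∑ c ∈ C l (s + 1), φ (3 ^ l + 2 * c) else 0 := by
  have h1 : ∀ T : Finset ℤ, ∑ c ∈ T.image (fun z => 2 * z), φ c = ∑ c ∈ T, φ (2 * c) :=
    fun T => Finset.sum_image fun x _ y _ hxy => by simpa using hxy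
  have h2 : ∀ T : Finset ℤ, ∑ c ∈ T.image (fun z => 3 ^ l + 2 * z), φ c =
      ∑ c ∈ T, φ (3 ^ l + 2 * c) :=
    fun T => Finset.sum_image fun x _ y _ hxy => by simpa using hxy
  simp only [C]
  cases hs : ok s
  · simp [h1]
  · simp only [if_true, cond_true]
    rw [Finset.sum_union, h1, h2]
    rw [Finset.disjoint_left]
    intro z hz hz'
    obtain ⟨x, -, rfl⟩ := Finset.mem_image.1 hz
    obtain ⟨y, -, hy⟩ := Finset.mem_image.1 hz'
    have : Odd ((3 : ℤ) ^ l) := Odd.pow (by decide)
    obtain ⟨k, hk⟩ := this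
    omega

theorem ok_succ {s : ℕ} (h : ok s = true) : ok (s + 1) = false ∧ s + 1 < 8 := by
  simp only [ok, Bool.or_eq_true, Nat.beq_eq] at h
  rcases h with rfl | rfl <;> decide

theorem nx_lt {s : ℕ} (h : s < 8) : nx s < 8 := by
  interval_cases s <;> decide

theorem C_bound (l s : ℕ) (c : ℤ) (hc : c ∈ C l s) :
    0 ≤ c ∧ 5 * c ≤ 3 * 3 ^ l ∧ (ok s = false → 5 * c ≤ 2 * 3 ^ l) := by
  induction l generalizing s c with
  | zero =>
    simp only [C, Finset.mem_singleton] at hc
    subst hc
    simp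
  | succ l ih =>
    simp only [C, Finset.mem_union, Finset.mem_image] at hc
    have h3 : (0 : ℤ) < 3 ^ l := by positivity
    rw [pow_succ]
    rcases hc with ⟨x, hx, rfl⟩ | hc
    · obtain ⟨a, b, -⟩ := ih _ _ hx
      exact ⟨by omega, by omega, fun _ => by omega⟩
    · cases hs : ok s
      · simp [hs] at hc
      · simp only [hs, if_true, Finset.mem_image] at hc
        obtain ⟨x, hx, rfl⟩ := hc
        obtain ⟨a, -, b⟩ := ih _ _ hx
        have := b (ok_succ hs).1
        exact ⟨by omega, by omega, fun h => by simp at h⟩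

theorem W_nil {R : Type} [AddCommMonoid R] (l : ℕ) (φ : ℤ → R) : W l [] φ = φ 0 := rfl

theorem W_cons {R : Type} [AddCommMonoid R] (l s : ℕ) (p : List ℕ) (φ : ℤ → R) :
    W l (s :: p) φ = ∑ c ∈ C l s, W l p fun z => φ (c + z) := by
  simp [W, F]

theorem W_mono (l : ℕ) (p : List ℕ) (φ ψ : ℤ → ℕ)
    (h : ∀ z : ℤ, 0 ≤ z → 5 * z ≤ 3 * p.length * 3 ^ l → φ z ≤ ψ z) : W l p φ ≤ W l p ψ := by
  induction p generalizing φ ψ with
  | nil => exact h 0 le_rfl (by simp)
  | cons s p ih =>
    rw [W_cons, W_cons]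
    refine Finset.sum_le_sum fun c hc => ih _ _ fun (z : ℤ) h0 h1 => ?_
    obtain ⟨a, b, -⟩ := C_bound l s c hc
    refine h (c + z) (by omega) ?_
    simp only [List.length_cons]
    push_cast
    nlinarith

theorem W_perm {R : Type} [AddCommMonoid R] (l : ℕ) {p q : List ℕ} (h : p.Perm q) (φ : ℤ → R) :
    W l p φ = W l q φ := F_perm (h.map _) φ

theorem W_zero_len {R : Type} [AddCommMonoid R] (p : List ℕ) (φ : ℤ → R) : W 0 p φ = φ 0 := by
  induction p generalizing φ with
  | nil => rfl
  | cons s p ih => rw [W_cons]; simp [C, ih]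

theorem H_sum {ι : Type} (p : List ℕ) (s : Finset ι) (ψ : ι → List ℕ → ℕ → ℕ) :
    H p (fun p' i => ∑ c ∈ s, ψ c p' i) = ∑ c ∈ s, H p (ψ c) := by
  induction p generalizing ψ with
  | nil => rfl
  | cons a p ih =>
    simp only [H]
    rw [Finset.sum_add_distrib, ih]
    congr 1
    cases ok a
    · simp
    · simp only [cond_true]
      rw [ih]

theorem F_H (L : List (Finset ℤ × ℤ)) (p : List ℕ) (ψ : ℤ → List ℕ → ℕ → ℕ) :
    F L (fun x => H p (ψ x)) = H p fun p' i => F L fun x => ψ x p' i := by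
  induction L generalizing ψ with
  | nil => rfl
  | cons a L ih =>
    simp only [F]
    rw [H_sum]
    exact Finset.sum_congr rfl fun c _ => ih _

theorem W_succ (l : ℕ) (p : List ℕ) (φ : ℤ → ℕ) :
    W (l + 1) p φ = H p fun p' i => W l p' fun z => φ (i * 3 ^ l + 2 * z) := by
  induction p generalizing φ with
  | nil => simp [W_nil, H]
  | cons s p ih =>
    rw [W_cons, sum_C]
    simp only [H, W_cons]
    rw [H_sum]
    congr 1
    · refine Finset.sum_congr rfl fun c _ => ?_
      rw [ih]
      congr 1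
      funext p' i
      congr 1
      funext z
      congr 1
      ring
    · cases ok s
      · simp
      · simp only [cond_true]
        rw [H_sum]
        refine Finset.sum_congr rfl fun c _ => ?_
        rw [ih]
        congr 1
        funext p' i
        congr 1
        funext z
        congr 1
        push_cast
        ring

theorem E_succ (l : ℕ) (p q : List ℕ) (φ : ℤ → ℕ) :
    E (l + 1) p q φ = H p fun p' i => H q fun q' j =>
      E l p' q' fun z => φ (((i : ℤ) - j) * 3 ^ l + 2 * z) := by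
  unfold E
  rw [W_succ]
  congr 1
  funext p' i
  simp only [W_succ]
  refine (F_H _ q fun x q' j => W l q' fun z =>
    φ (i * 3 ^ l + 2 * x - (j * 3 ^ l + 2 * z))).trans ?_
  congr 1
  funext q' j
  unfold W
  congr 1
  funext x
  congr 1
  funext y
  congr 1
  ring

theorem E_perm (l : ℕ) {p p' q q' : List ℕ} (hp : p.Perm p') (hq : q.Perm q') (φ : ℤ → ℕ) :
    E l p q φ = E l p' q' φ := by
  unfold E
  rw [W_perm l hp]
  congr 1
  funext x
  exact W_perm l hq _

theorem E_mono (l : ℕ) (p q : List ℕ) (hp : p.length = 3) (hq : q.length = 3) (φ ψ : ℤ → ℕ)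
    (h : ∀ z : ℤ, 5 * |z| ≤ 9 * 3 ^ l → φ z ≤ ψ z) : E l p q φ ≤ E l p q ψ := by
  unfold E
  refine W_mono _ _ _ _ fun (x : ℤ) h0 h1 => W_mono _ _ _ _ fun (y : ℤ) h2 h3 => h (x - y) ?_
  rw [hp] at h1
  rw [hq] at h3
  push_cast at h1 h3
  rcases abs_cases (x - y) with h | h <;> omega

theorem E_zero (l : ℕ) (p q : List ℕ) : E l p q (fun _ => 0) = 0 := by
  unfold E W
  simp only [F_zero]

theorem key_perm {p q : List ℕ} (h : p.Perm q) : key p = key q := by
  induction h with
  | nil => rfl
  | cons a _ ih => simp [key, ih]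
  | swap a b L => simp only [key]; ring
  | trans _ _ ih1 ih2 => rw [ih1, ih2]

theorem H_le (B A A' : ℕ) (p : List ℕ) (hp : ∀ s ∈ p, s < 8) (ψ ψ' : List ℕ → ℕ → ℕ)
    (h : ∀ p' i, p'.length = p.length → (∀ s ∈ p', s < 8) → i ≤ p.length → ψ' p' i < B →
      A * ψ p' i ≤ A' * ψ' p' i) (hB : H p ψ' < B) : A * H p ψ ≤ A' * H p ψ' := by
  induction p generalizing ψ ψ' with
  | nil => exact h [] 0 rfl (by simp) le_rfl hB
  | cons s p ih =>
    have hs : s < 8 := hp s (by simp)
    have hp' : ∀ t ∈ p, t < 8 := fun t ht => hp t (by simp [ht])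
    simp only [H] at hB ⊢
    rw [mul_add, mul_add]
    refine add_le_add (ih hp' _ _ (fun p' i h1 h2 h3 h4 => h _ _ (by simp [h1]) ?_
      (by simp only [List.length_cons]; omega) h4) (by omega)) ?_
    · intro t ht
      rcases List.mem_cons.1 ht with rfl | ht
      · exact nx_lt hs
      · exact h2 t ht
    · cases ho : ok s
      · simp
      · simp only [ho, cond_true] at hB ⊢
        refine ih hp' _ _ (fun p' i h1 h2 h3 h4 => h _ _ (by simp [h1]) ?_
          (by simp only [List.length_cons]; omega) h4) (by omega)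
        intro t ht
        rcases List.mem_cons.1 ht with rfl | ht
        · exact (ok_succ ho).2
        · exact h2 t ht

theorem S3_all : ((List.range 8).all fun a => (List.range 8).all fun b => (List.range 8).all fun c =>
    S3.any fun q => [a, b, c].isPerm q) = true := by
  decide +kernel

theorem exists_S3 (p : List ℕ) (h3 : p.length = 3) (hp : ∀ s ∈ p, s < 8) :
    ∃ q ∈ S3, p.Perm q := by
  obtain ⟨a, b, c, rfl⟩ := List.length_eq_three.1 h3
  have := S3_all
  simp only [List.all_eq_true, List.mem_range, List.any_eq_true] at this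
  obtain ⟨q, hq, h⟩ := this a (hp a (by simp)) b (hp b (by simp)) c (hp c (by simp))
  exact ⟨q, hq, List.isPerm_iff.1 h⟩

end Pool.Agent.P.MP_9a799e_nt.Z
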