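import Pool.Agent.P.MP_9a799e_nt.ZBasic

/-! A six-fold Hoelder inequality for the number of solutions of a congruence. -/

set_option autoImplicit false

namespace Pool.Agent.P.MP_9a799e_nt.Z

/-- the indicator of the multiples of `M` -/
def ind (M : ℕ) (z : ℤ) : ℕ := if (M : ℤ) ∣ z then 1 else 0

/-- additive characters modulo `M` -/
noncomputable def chi (M : ℕ) [NeZero M] (k : ZMod M) (z : ℤ) : ℂ :=
  ZMod.stdAddChar (k * (z : ZMod M))

/-- exponential sums -/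
noncomputable def ES (M : ℕ) [NeZero M] (k : ZMod M) (a : Finset ℤ × ℤ) : ℂ :=
  ∑ c ∈ a.1, chi M k (a.2 * c)

variable (M : ℕ) [NeZero M]

theorem chi_orth (z : ℤ) : ∑ k, chi M k z = M * (ind M z : ℂ) := by
  unfold chi ind
  rw [AddChar.sum_mulShift _ (ZMod.isPrimitive_stdAddChar M)]
  simp only [ZMod.intCast_zmod_eq_zero_iff_dvd, ZMod.card]
  split_ifs <;> simp

theorem orth (L : List (Finset ℤ × ℤ)) :
    (M : ℂ) * ((F L (ind M) : ℕ) : ℂ) = ∑ k, (L.map (ES M k)).prod := by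
  have h1 := F_map ((AddMonoidHom.mulLeft (M : ℂ)).comp (Nat.castAddMonoidHom ℂ)) L (ind M)
  simp only [AddMonoidHom.coe_comp, AddMonoidHom.coe_mulLeft, Nat.coe_castAddMonoidHom,
    Function.comp_apply] at h1
  rw [h1]
  simp only [← chi_orth]
  rw [F_sum]
  refine Finset.sum_congr rfl fun k _ => F_char L _ ?_ ?_
  · simp [chi]
  · intro x y
    simp only [chi, Int.cast_add, mul_add, AddChar.map_add_eq_mul]

theorem ES_neg (k : ZMod M) (D : Finset ℤ) (η : ℤ) :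
    ES M k (D, -η) = (starRingEnd ℂ) (ES M k (D, η)) := by
  unfold ES chi
  rw [map_sum]
  refine Finset.sum_congr rfl fun c _ => ?_
  rw [← AddChar.map_neg_eq_conj]
  congr 1
  push_cast
  ring

theorem amgm3 (a b c : ℝ) (ha : 0 ≤ a) (hb : 0 ≤ b) (hc : 0 ≤ c) :
    3 * (a * b * c) ≤ a ^ 3 + b ^ 3 + c ^ 3 := by
  nlinarith [mul_nonneg (add_nonneg (add_nonneg ha hb) hc)
    (add_nonneg (add_nonneg (sq_nonneg (a - b)) (sq_nonneg (b - c))) (sq_nonneg (a - c)))]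

theorem amgm6 (x : Fin 6 → ℝ) : 6 * ∏ j, x j ≤ ∑ j, x j ^ 6 := by
  simp only [Fin.prod_univ_six, Fin.sum_univ_six]
  have h1 := amgm3 (x 0 ^ 2) (x 1 ^ 2) (x 2 ^ 2) (sq_nonneg _) (sq_nonneg _) (sq_nonneg _)
  have h2 := amgm3 (x 3 ^ 2) (x 4 ^ 2) (x 5 ^ 2) (sq_nonneg _) (sq_nonneg _) (sq_nonneg _)
  nlinarith [sq_nonneg (x 0 * x 1 * x 2 - x 3 * x 4 * x 5)]

theorem holder (I : Finset ℤ) (α : ℤ) (D : Fin 6 → Finset ℤ) (η : Fin 6 → ℤ) (t : Fin 6 → ℝ)
    (B : ℝ) (ht : ∀ j, 0 < t j)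
    (h : ∀ j, ((F [(I, α), (I, -α), (D j, η j), (D j, η j), (D j, η j), (D j, -η j), (D j, -η j),
      (D j, -η j)] (ind M) : ℕ) : ℝ) ≤ B * t j ^ 6) :
    ((F [(I, α), (I, -α), (D 0, η 0), (D 1, η 1), (D 2, η 2), (D 3, η 3), (D 4, η 4),
      (D 5, η 5)] (ind M) : ℕ) : ℝ) ≤ B * ∏ j, t j := by
  have hM : (0 : ℝ) < M := by exact_mod_cast Nat.pos_of_ne_zero (NeZero.ne M)
  set J : ZMod M → ℝ := fun k => ‖ES M k (I, α)‖ ^ 2 with hJ
  set a : Fin 6 → ZMod M → ℝ := fun j k => ‖ES M k (D j, η j)‖ with ha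
  have h1 : ∀ j, ∑ k, J k * a j k ^ 6 ≤ M * (B * t j ^ 6) := fun j => by
    refine le_trans (le_of_eq ?_) (mul_le_mul_of_nonneg_left (h j) hM.le)
    apply Complex.ofReal_injective
    push_cast
    rw [orth]
    refine Finset.sum_congr rfl fun k _ => ?_
    simp only [List.map_cons, List.map_nil, List.prod_cons, List.prod_nil, ES_neg, hJ, ha]
    push_cast
    have e1 := Complex.mul_conj' (ES M k (I, α))
    have e2 := Complex.mul_conj' (ES M k (D j, η j))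
    rw [← e1, show (6 : ℕ) = 2 * 3 from rfl, pow_mul, ← e2]
    ring
  have h2 : (M : ℝ) * ((F [(I, α), (I, -α), (D 0, η 0), (D 1, η 1), (D 2, η 2), (D 3, η 3),
      (D 4, η 4), (D 5, η 5)] (ind M) : ℕ) : ℝ) ≤ ∑ k, J k * ∏ j, a j k := by
    have e := congrArg norm (orth M [(I, α), (I, -α), (D 0, η 0), (D 1, η 1), (D 2, η 2),
      (D 3, η 3), (D 4, η 4), (D 5, η 5)])
    rw [norm_mul, Complex.norm_natCast, Complex.norm_natCast] at e
    rw [e]
    refine (norm_sum_le _ _).trans (le_of_eq (Finset.sum_congr rfl fun k _ => ?_))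
    simp only [List.map_cons, List.map_nil, List.prod_cons, List.prod_nil, ES_neg, hJ, ha,
      norm_mul, Complex.norm_conj, Fin.prod_univ_six, norm_one]
    ring
  have hT : 0 < ∏ j, t j := Finset.prod_pos fun j _ => ht j
  have h3 : ∀ k, 6 * (J k * ∏ j, a j k) ≤ (∏ j, t j) * ∑ j, J k * a j k ^ 6 / t j ^ 6 := by
    intro k
    have e := amgm6 fun j => a j k / t j
    rw [Finset.prod_div_distrib] at e
    have hJ0 : 0 ≤ J k := sq_nonneg _
    have e2 : ∑ j, J k * a j k ^ 6 / t j ^ 6 = J k * ∑ j, (a j k / t j) ^ 6 := by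
      rw [Finset.mul_sum]
      exact Finset.sum_congr rfl fun j _ => by rw [div_pow, mul_div_assoc]
    rw [e2]
    calc _ = (∏ j, t j) * (J k * (6 * ((∏ j, a j k) / ∏ j, t j))) := by field_simp
      _ ≤ _ := mul_le_mul_of_nonneg_left (mul_le_mul_of_nonneg_left e hJ0) hT.le
  have h4 : 6 * ∑ k, J k * ∏ j, a j k ≤ (∏ j, t j) * (6 * (M * B)) := by
    rw [Finset.mul_sum]
    refine (Finset.sum_le_sum fun k _ => h3 k).trans ?_
    rw [← Finset.mul_sum, Finset.sum_comm]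
    refine mul_le_mul_of_nonneg_left ?_ hT.le
    calc _ ≤ ∑ _j : Fin 6, (M : ℝ) * B := Finset.sum_le_sum fun j _ => by
          rw [← Finset.sum_div, div_le_iff₀ (pow_pos (ht j) 6), mul_assoc]
          exact h1 j
      _ = _ := by simp
  refine le_of_mul_le_mul_left ?_ hM
  nlinarith

end Pool.Agent.P.MP_9a799e_nt.Z
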