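import Pool.Agent.P.MP_fc15d7_nt.Subspace

/-! A consequence of Ridout's theorem. -/

set_option autoImplicit false

open Filter Matrix

namespace Pool.Agent.P.MP_9a799e_nt.Z

open Pool.Agent.P.MP_fc15d7_nt

theorem ex_log (p a n : ℕ) (hp : 2 ≤ p) : ex p (a * Real.log p) n = a * n := by
  have h : 0 < Real.log p := Real.log_pos (by exact_mod_cast hp)
  unfold ex
  have : (a : ℝ) * Real.log p * n / Real.log p = ((a * n : ℕ) : ℝ) := by
    push_cast
    field_simp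
  rw [this, Nat.ceil_natCast]

theorem exp_log_mul (p a n : ℕ) (hp : 2 ≤ p) :
    Real.exp (a * Real.log p * n) = (p : ℝ) ^ (a * n) := by
  have h : (0 : ℝ) < p := by exact_mod_cast (by omega : 0 < p)
  rw [← Real.exp_log (pow_pos h _), Real.log_pow]
  congr 1
  push_cast
  ring

theorem ridout (A B : ℕ) : ∀ᶠ n : ℕ in atTop, ∀ d b : ℤ, |d| ≤ 2 * 3 ^ (5 * n) →
    |b| ≤ 2 * 2 ^ (B * n) → (2 : ℤ) ^ ((B + 8) * n) ∣ d - 3 ^ (A * n) * b →
    d = 3 ^ (A * n) * b := by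
  by_contra hcon
  have hfr : ∃ᶠ n : ℕ in atTop, ∃ x : ℤ × ℤ, |x.1| ≤ 2 * 3 ^ (5 * n) ∧
      |x.2| ≤ 2 * 2 ^ (B * n) ∧ (2 : ℤ) ^ ((B + 8) * n) ∣ x.1 - 3 ^ (A * n) * x.2 ∧
      x.1 ≠ 3 ^ (A * n) * x.2 := by
    rw [Filter.not_eventually] at hcon
    refine hcon.mono fun n hn => ?_
    push Not at hn
    obtain ⟨d, b, h⟩ := hn
    exact ⟨(d, b), h⟩
  set S := {n : ℕ | ∃ x : ℤ × ℤ, |x.1| ≤ 2 * 3 ^ (5 * n) ∧
      |x.2| ≤ 2 * 2 ^ (B * n) ∧ (2 : ℤ) ^ ((B + 8) * n) ∣ x.1 - 3 ^ (A * n) * x.2 ∧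
      x.1 ≠ 3 ^ (A * n) * x.2} with hS
  haveI : (atTop ⊓ 𝓟 S).NeBot := Filter.frequently_iff_neBot.1 hfr
  set U := Ultrafilter.of (atTop ⊓ 𝓟 S)
  have hU : (U : Filter ℕ) ≤ atTop ⊓ 𝓟 S := Ultrafilter.of_le _
  have hU1 : (U : Filter ℕ) ≤ atTop := hU.trans inf_le_left
  have hU2 : ∀ᶠ n in U, n ∈ S := (hU.trans inf_le_right) (Filter.mem_principal_self S)
  have hch : ∀ n : ℕ, ∃ x : ℤ × ℤ, n ∈ S → |x.1| ≤ 2 * 3 ^ (5 * n) ∧
      |x.2| ≤ 2 * 2 ^ (B * n) ∧ (2 : ℤ) ^ ((B + 8) * n) ∣ x.1 - 3 ^ (A * n) * x.2 ∧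
      x.1 ≠ 3 ^ (A * n) * x.2 := fun n => by
    by_cases h : n ∈ S
    · obtain ⟨x, hx⟩ := h
      exact ⟨x, fun _ => hx⟩
    · exact ⟨0, fun h' => absurd h' h⟩
  choose x hx using hch
  have hl : 5 * Real.log 3 < 8 * Real.log 2 := by
    have h1 : Real.log ((3 : ℝ) ^ 5) < Real.log ((2 : ℝ) ^ 8) :=
      Real.log_lt_log (by norm_num) (by norm_num)
    rw [Real.log_pow, Real.log_pow] at h1
    exact_mod_cast h1
  set η : ℝ := (8 * Real.log 2 - 5 * Real.log 3) / 3 with hη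
  have hη0 : 0 < η := by rw [hη]; linarith
  have hexp : ∀ᶠ n : ℕ in atTop, 2 ≤ Real.exp (η * n) :=
    (Real.tendsto_exp_atTop.comp
      (tendsto_natCast_atTop_atTop.const_mul_atTop hη0)).eventually_ge_atTop 2
  obtain ⟨l, hl0, hl1⟩ := subspace 2 (Fin 2) ![2, 3] 1 ![!![1, 0; 1, -1], 1]
    ![(5 : ℕ) * Real.log (3 : ℕ) + η, (A : ℕ) * Real.log (3 : ℕ) + B * Real.log (2 : ℕ) + η]
    ![![(0 : ℕ) * Real.log (2 : ℕ), ((B + 8 : ℕ) : ℝ) * Real.log (2 : ℕ)],
      ![(0 : ℕ) * Real.log (3 : ℕ), (A : ℕ) * Real.log (3 : ℕ)]] U (fun n => (n : ℝ))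
    (fun n => ![(x n).1, 3 ^ (A * n) * (x n).2])
    ⟨fun v => by fin_cases v <;> simp, by
      intro v w hvw
      fin_cases v <;> fin_cases w <;> simp at hvw ⊢ <;> norm_num, by simp, fun v => by
      fin_cases v <;> simp [Matrix.det_fin_two]⟩
    (fun v i => by
      fin_cases v <;> fin_cases i <;> simp <;> positivity)
    (by
      simp only [Fin.sum_univ_two, Matrix.cons_val_zero, Matrix.cons_val_one]
      push_cast
      rw [hη]
      linarith)
    (tendsto_natCast_atTop_atTop.mono_left hU1)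
    (by
      filter_upwards [hU2, hU1 hexp] with n hn he
      obtain ⟨h1, h2, h3, -⟩ := hx n hn
      refine ⟨fun i => ?_, fun v i => ?_⟩
      · fin_cases i
        · simp only [Matrix.one_mulVec, Fin.zero_eta, Matrix.cons_val_zero]
          rw [add_mul, Real.exp_add, exp_log_mul 3 5 n (by norm_num)]
          have : |((x n).1 : ℝ)| ≤ 2 * 3 ^ (5 * n) := by exact_mod_cast h1
          push_cast
          have h4 : (0 : ℝ) < 3 ^ (5 * n) := by positivity
          nlinarith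
        · simp only [Matrix.one_mulVec, Fin.mk_one, Matrix.cons_val_one, Matrix.cons_val_zero]
          rw [add_mul, add_mul, Real.exp_add, Real.exp_add, exp_log_mul 3 A n (by norm_num),
            exp_log_mul 2 B n (by norm_num)]
          have : |((x n).2 : ℝ)| ≤ 2 * 2 ^ (B * n) := by exact_mod_cast h2
          push_cast
          rw [abs_mul, abs_of_pos (by positivity : (0 : ℝ) < 3 ^ (A * n)), mul_assoc]
          refine mul_le_mul_of_nonneg_left ?_ (by positivity)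
          have h4 : (0 : ℝ) < 2 ^ (B * n) := by positivity
          nlinarith
      · fin_cases v <;> fin_cases i
        · simp only [Fin.zero_eta, Matrix.cons_val_zero]
          rw [ex_log 2 0 n le_rfl]
          simp
        · simp only [Fin.zero_eta, Fin.mk_one, Matrix.cons_val_zero, Matrix.cons_val_one]
          rw [ex_log 2 (B + 8) n le_rfl]
          simpa [Matrix.mulVec, dotProduct, Fin.sum_univ_two, sub_eq_add_neg] using h3
        · simp only [Fin.zero_eta, Fin.mk_one, Matrix.cons_val_zero, Matrix.cons_val_one]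
          rw [ex_log 3 0 n (by norm_num)]
          simp
        · simp only [Fin.mk_one, Matrix.cons_val_zero, Matrix.cons_val_one]
          rw [ex_log 3 A n (by norm_num)]
          simp)
  have hbig : ∀ᶠ n : ℕ in atTop, |l 0 + l 1| * (2 * 3 ^ (5 * n)) < 2 ^ (8 * n) := by
    have h1 : Tendsto (fun n : ℕ => ((256 : ℝ) / 243) ^ n) atTop atTop :=
      tendsto_pow_atTop_atTop_of_one_lt (by norm_num)
    filter_upwards [h1.eventually_gt_atTop (|((l 0 + l 1 : ℤ) : ℝ)| * 2)] with n hn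
    rw [div_pow, lt_div_iff₀ (by positivity)] at hn
    have : |((l 0 + l 1 : ℤ) : ℝ)| * (2 * 3 ^ (5 * n)) < 2 ^ (8 * n) := by
      rw [pow_mul, pow_mul]
      norm_num at hn ⊢
      linarith
    exact_mod_cast this
  obtain ⟨n, hn, hn1, hn2, hn3⟩ :=
    (hU2.and (hl1.and ((hbig.filter_mono hU1).and
      ((eventually_ge_atTop 1).filter_mono hU1)))).exists
  obtain ⟨h1, h2, h3, h4⟩ := hx n hn
  simp only [Fin.sum_univ_two, Matrix.cons_val_zero, Matrix.cons_val_one] at hn1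
  have hle : (2 : ℤ) ^ (8 * n) ≤ 2 ^ ((B + 8) * n) :=
    pow_le_pow_right₀ (by norm_num) (by nlinarith)
  have e1 : (l 0 + l 1) * (x n).1 = l 1 * ((x n).1 - 3 ^ (A * n) * (x n).2) := by linarith
  have e2 : (l 0 + l 1) * (x n).1 = 0 := by
    refine Int.eq_zero_of_abs_lt_dvd (m := 2 ^ ((B + 8) * n)) (e1 ▸ h3.mul_left _) ?_
    rw [abs_mul]
    exact lt_of_le_of_lt (mul_le_mul_of_nonneg_left h1 (abs_nonneg _)) (hn2.trans_le hle)
  have e3 : l 1 = 0 := by
    rw [e1] at e2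
    exact (mul_eq_zero.1 e2).resolve_right (sub_ne_zero.2 h4)
  have e4 : l 0 ≠ 0 := by
    intro h
    apply hl0
    funext i
    fin_cases i
    · exact h
    · exact e3
  have e5 : (x n).1 = 0 := by
    rw [e3, add_zero] at e2
    exact (mul_eq_zero.1 e2).resolve_left e4
  rw [e5, zero_sub, dvd_neg] at h3
  have e6 : (2 : ℤ) ^ ((B + 8) * n) ∣ (x n).2 :=
    (IsCoprime.pow (by norm_num : IsCoprime (2 : ℤ) 3)).dvd_of_dvd_mul_left h3
  have e7 : (x n).2 = 0 := by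
    refine Int.eq_zero_of_abs_lt_dvd e6 (lt_of_le_of_lt h2 ?_)
    rw [← pow_succ']
    exact pow_lt_pow_right₀ (by norm_num) (by nlinarith)
  exact h4 (by rw [e5, e7, mul_zero])

end Pool.Agent.P.MP_9a799e_nt.Z
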