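import Pool.Agent.P.MP_9a799e_nt.ZEnergy
import Pool.Agent.P.MP_9a799e_nt.ZFourier
import Pool.Agent.P.MP_9a799e_nt.ZRidout

/-! The energies of the six blocks modulo `2 ^ (33 n)`. -/

set_option autoImplicit false

namespace Pool.Agent.P.MP_9a799e_nt.Z

theorem W_scale (l : ℕ) (p : List ℕ) (η : ℤ) (φ : ℤ → ℕ) :
    F (p.map fun s => (C l s, η)) φ = W l p fun z => φ (η * z) := by
  unfold W
  rw [← F_scale, List.map_map]
  congr 2
  funext s
  simp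

theorem conv (I : Finset ℤ) (α η : ℤ) (l : ℕ) (φ : ℤ → ℕ) :
    F [(I, α), (I, -α), (C l 0, η), (C l 0, η), (C l 0, η), (C l 0, -η), (C l 0, -η),
      (C l 0, -η)] φ =
    E l [0, 0, 0] [0, 0, 0] fun d => F [(I, α), (I, -α)] fun y => φ (η * d + y) := by
  have hp : [(I, α), (I, -α), (C l 0, η), (C l 0, η), (C l 0, η), (C l 0, -η), (C l 0, -η),
      (C l 0, -η)].Perm ((([0, 0, 0].map fun s => (C l s, η)) ++
        ([0, 0, 0].map fun s => (C l s, -η))) ++ [(I, α), (I, -α)]) :=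
    List.perm_append_comm (l₁ := [(I, α), (I, -α)])
  rw [F_perm hp, F_append, F_append, W_scale]
  unfold E
  congr 1
  funext x
  rw [W_scale]
  congr 1
  funext y
  congr 1
  funext z
  congr 1
  ring

theorem E_lin {ι : Type} (l : ℕ) (p q : List ℕ) (k : ℕ) (s : Finset ι) (φ : ι → ℤ → ℕ) :
    E l p q (fun z => k * ∑ i ∈ s, φ i z) = k * ∑ i ∈ s, E l p q (φ i) := by
  unfold E W
  simp only [F_mul, F_sum]

theorem dvd_of_eq' {a b c : ℤ} (h : a ∣ b) (e : c = b) : a ∣ c := e ▸ h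

theorem pairs_le (M h : ℕ) (α z : ℤ) (hc : IsCoprime (M : ℤ) α) (hM : 2 * h < M) :
    F [(Finset.Icc (0 : ℤ) (2 * h), α), (Finset.Icc (0 : ℤ) (2 * h), -α)]
      (fun y => ind M (z + y)) ≤ 2 * h + 1 := by
  simp only [F]
  refine (Finset.sum_le_card_nsmul _ _ 1 fun a _ => ?_).trans ?_
  · unfold ind
    rw [← Finset.card_filter]
    refine Finset.card_le_one.2 fun b hb b' hb' => ?_
    simp only [Finset.mem_filter, Finset.mem_Icc] at hb hb'
    have h1 : (M : ℤ) ∣ α * (b - b') := by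
      exact dvd_of_eq' (dvd_sub hb'.2 hb.2) (by ring)
    have h2 := hc.dvd_of_dvd_mul_left h1
    have h3 : b - b' = 0 := Int.eq_zero_of_abs_lt_dvd h2 (by rw [abs_lt]; omega)
    omega
  · simp only [Int.card_Icc, smul_eq_mul, mul_one]
    omega

theorem pairs_zero (M h : ℕ) (α z : ℤ)
    (hz : ∀ e : ℤ, |e| ≤ 2 * h → ¬ (M : ℤ) ∣ z + α * e) :
    F [(Finset.Icc (0 : ℤ) (2 * h), α), (Finset.Icc (0 : ℤ) (2 * h), -α)]
      (fun y => ind M (z + y)) = 0 := by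
  simp only [F]
  refine Finset.sum_eq_zero fun a ha => Finset.sum_eq_zero fun b hb => ?_
  simp only [Finset.mem_Icc] at ha hb
  unfold ind
  rw [if_neg]
  intro h1
  refine hz (a - b) (by rw [abs_le]; omega) ?_
  exact dvd_of_eq' h1 (by ring)

theorem two_h_lt (n : ℕ) (hn : 1 ≤ n) : 2 * 2 ^ (25 * n) < 2 ^ (33 * n) := by
  rw [← pow_succ']
  exact Nat.pow_lt_pow_right (by norm_num) (by omega)

theorem cop (a b : ℕ) : IsCoprime ((2 : ℤ) ^ a) (3 ^ b) :=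
  IsCoprime.pow (by norm_num : IsCoprime (2 : ℤ) 3)

theorem blockX (j j' : ℕ) (hj : j + j' = 4) : ∀ᶠ n : ℕ in Filter.atTop,
    ((E (5 * n) [0, 0, 0] [0, 0, 0] fun d =>
      F [(Finset.Icc (0 : ℤ) (2 * (2 ^ (25 * n) : ℕ)), 3 ^ (33 * n)),
        (Finset.Icc (0 : ℤ) (2 * (2 ^ (25 * n) : ℕ)), -3 ^ (33 * n))]
      fun y => ind (2 ^ (33 * n)) (2 ^ (5 * j * n) * 3 ^ ((5 * j' + 8) * n) * d + y) : ℕ) : ℝ) ≤
      (2 * 2 ^ (25 * n) + 1) * (10 * (15 / 4) ^ n) ^ 6 := by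
  filter_upwards [ridout (5 * j + 5) (5 * j' + 5), Filter.eventually_ge_atTop 1] with n hr hn
  have h1 : (E (5 * n) [0, 0, 0] [0, 0, 0] fun d =>
      F [(Finset.Icc (0 : ℤ) (2 * (2 ^ (25 * n) : ℕ)), 3 ^ (33 * n)),
        (Finset.Icc (0 : ℤ) (2 * (2 ^ (25 * n) : ℕ)), -3 ^ (33 * n))]
      fun y => ind (2 ^ (33 * n)) (2 ^ (5 * j * n) * 3 ^ ((5 * j' + 8) * n) * d + y)) ≤
      (2 * 2 ^ (25 * n) + 1) * ∑ K ∈ Finset.range 3, E (5 * n) [0, 0, 0] [0, 0, 0]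
        fun z => if z = ((K : ℤ) - 1) * 3 ^ (5 * n) then 1 else 0 := by
    rw [← E_lin]
    refine E_mono _ _ _ rfl rfl _ _ fun d hd => ?_
    by_cases hK : ∃ K ∈ Finset.range 3, d = ((K : ℤ) - 1) * 3 ^ (5 * n)
    · obtain ⟨K, hK, hK'⟩ := hK
      refine (pairs_le _ _ _ _ (by push_cast; exact cop _ _) (two_h_lt n hn)).trans
        (Nat.le_mul_of_pos_right _ ?_)
      exact Finset.sum_pos' (fun _ _ => Nat.zero_le _) ⟨K, hK, by simp [hK']⟩
    · rw [pairs_zero]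
      · exact Nat.zero_le _
      intro e he hdv
      apply hK
      push_cast at he hdv
      have e1 : (3 : ℤ) ^ (33 * n) = 3 ^ ((5 * j' + 8) * n) * 3 ^ ((5 * j + 5) * n) := by
        rw [← pow_add]; congr 1; nlinarith
      have e2 : (2 : ℤ) ^ (33 * n) = 2 ^ (5 * j * n) * 2 ^ ((5 * j' + 5 + 8) * n) := by
        rw [← pow_add]; congr 1; nlinarith
      have e3 : (2 : ℤ) ^ (25 * n) = 2 ^ (5 * j * n) * 2 ^ ((5 * j' + 5) * n) := by
        rw [← pow_add]; congr 1; nlinarith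
      have e4 : (3 : ℤ) ^ ((5 * j + 5) * n) = 3 ^ (5 * j * n) * 3 ^ (5 * n) := by
        rw [← pow_add]; congr 1; ring
      have d1 : (2 : ℤ) ^ (33 * n) ∣ 2 ^ (5 * j * n) * d + 3 ^ ((5 * j + 5) * n) * e := by
        refine (cop _ ((5 * j' + 8) * n)).dvd_of_dvd_mul_left ?_
        exact dvd_of_eq' hdv (by rw [e1]; ring)
      have d2 : (2 : ℤ) ^ (5 * j * n) ∣ e := by
        refine (cop _ ((5 * j + 5) * n)).dvd_of_dvd_mul_left ?_
        exact (dvd_add_right (dvd_mul_right _ _)).1 ((Dvd.intro _ e2.symm).trans d1)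
      obtain ⟨b, rfl⟩ := d2
      have hp : (0 : ℤ) < 2 ^ (5 * j * n) := by positivity
      have h3 : (0 : ℤ) < 3 ^ (5 * n) := by positivity
      have d3 : (2 : ℤ) ^ ((5 * j' + 5 + 8) * n) ∣ d - 3 ^ ((5 * j + 5) * n) * (-b) := by
        refine (mul_dvd_mul_iff_left hp.ne').1 ?_
        rw [← e2]
        exact dvd_of_eq' d1 (by ring)
      have d4 := hr d (-b) (by omega) (by
        rw [abs_mul, abs_of_pos hp, e3, mul_left_comm] at he
        rw [abs_neg]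
        exact le_of_mul_le_mul_left he hp) d3
      obtain ⟨r, hr'⟩ : ∃ r : ℤ, d = r * 3 ^ (5 * n) := ⟨3 ^ (5 * j * n) * (-b), by
        rw [d4, e4]; ring⟩
      rw [hr', abs_mul, abs_of_pos h3] at hd
      have : 5 * |r| ≤ 9 := by nlinarith
      have h5 : -1 ≤ r ∧ r ≤ 1 := by rcases abs_cases r with h | h <;> omega
      refine ⟨(r + 1).toNat, by simp only [Finset.mem_range]; omega, ?_⟩
      rw [hr']
      congr 1
      omega
  have h2 : ∀ K ∈ Finset.range 3, ((E (5 * n) [0, 0, 0] [0, 0, 0]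
      fun z => if z = ((K : ℤ) - 1) * 3 ^ (5 * n) then 1 else 0 : ℕ) : ℝ) ≤
      100000 * ((15 / 4) ^ n) ^ 6 := fun K hK => by
    have := EX (5 * n) K (by simp only [Finset.mem_range] at hK; omega)
    have h3 : (25 : ℝ) ^ (5 * n) * ((E (5 * n) [0, 0, 0] [0, 0, 0]
      fun z => if z = ((K : ℤ) - 1) * 3 ^ (5 * n) then 1 else 0 : ℕ) : ℝ) ≤
        122 ^ (5 * n) * 100000 := by exact_mod_cast this
    refine le_of_mul_le_mul_left (h3.trans ?_) (by positivity : (0 : ℝ) < 25 ^ (5 * n))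
    rw [← pow_mul, mul_comm n 6, pow_mul, pow_mul, pow_mul, mul_left_comm, ← mul_pow, mul_comm]
    gcongr
    norm_num
  have h4 := Finset.sum_le_sum h2
  simp only [Finset.sum_const, Finset.card_range, nsmul_eq_mul] at h4
  refine le_trans (Nat.cast_le.2 h1) ?_
  push_cast at h4 ⊢
  refine mul_le_mul_of_nonneg_left (h4.trans ?_) (by positivity)
  rw [mul_pow]
  have : (0 : ℝ) ≤ ((15 / 4) ^ n) ^ 6 := by positivity
  nlinarith

theorem blockY (n : ℕ) (hn : 1 ≤ n) :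
    ((E (8 * n) [0, 0, 0] [0, 0, 0] fun d =>
      F [(Finset.Icc (0 : ℤ) (2 * (2 ^ (25 * n) : ℕ)), 3 ^ (33 * n)),
        (Finset.Icc (0 : ℤ) (2 * (2 ^ (25 * n) : ℕ)), -3 ^ (33 * n))]
      fun y => ind (2 ^ (33 * n)) (2 ^ (25 * n) * d + y) : ℕ) : ℝ) ≤
      (2 * 2 ^ (25 * n) + 1) * (10 * 11 ^ n) ^ 6 := by
  have h1 : (E (8 * n) [0, 0, 0] [0, 0, 0] fun d =>
      F [(Finset.Icc (0 : ℤ) (2 * (2 ^ (25 * n) : ℕ)), 3 ^ (33 * n)),
        (Finset.Icc (0 : ℤ) (2 * (2 ^ (25 * n) : ℕ)), -3 ^ (33 * n))]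
      fun y => ind (2 ^ (33 * n)) (2 ^ (25 * n) * d + y)) ≤
      (2 * 2 ^ (25 * n) + 1) * ∑ b ∈ Finset.Icc (-2 : ℤ) 2, E (8 * n) [0, 0, 0] [0, 0, 0]
        fun z => if (2 : ℤ) ^ (8 * n) ∣ z - 3 ^ (33 * n) * b then 1 else 0 := by
    rw [← E_lin]
    refine E_mono _ _ _ rfl rfl _ _ fun d _ => ?_
    by_cases hK : ∃ b ∈ Finset.Icc (-2 : ℤ) 2, (2 : ℤ) ^ (8 * n) ∣ d - 3 ^ (33 * n) * b
    · obtain ⟨K, hK, hK'⟩ := hK
      refine (pairs_le _ _ _ _ (by push_cast; exact cop _ _) (two_h_lt n hn)).trans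
        (Nat.le_mul_of_pos_right _ ?_)
      exact Finset.sum_pos' (fun _ _ => Nat.zero_le _) ⟨K, hK, by simp [hK']⟩
    · rw [pairs_zero]
      · exact Nat.zero_le _
      intro e he hdv
      apply hK
      push_cast at he hdv
      have e2 : (2 : ℤ) ^ (33 * n) = 2 ^ (25 * n) * 2 ^ (8 * n) := by
        rw [← pow_add]; congr 1; ring
      have d2 : (2 : ℤ) ^ (25 * n) ∣ e := by
        refine (cop _ (33 * n)).dvd_of_dvd_mul_left ?_
        exact (dvd_add_right (dvd_mul_right _ _)).1 ((Dvd.intro _ e2.symm).trans hdv)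
      obtain ⟨b, rfl⟩ := d2
      have hp : (0 : ℤ) < 2 ^ (25 * n) := by positivity
      rw [abs_mul, abs_of_pos hp, mul_comm 2] at he
      have h5 := abs_le.1 (le_of_mul_le_mul_left he hp)
      refine ⟨-b, by simp only [Finset.mem_Icc]; omega, ?_⟩
      refine (mul_dvd_mul_iff_left hp.ne').1 ?_
      rw [← e2]
      exact dvd_of_eq' hdv (by ring)
  have h2 : ∀ b ∈ Finset.Icc (-2 : ℤ) 2, ((E (8 * n) [0, 0, 0] [0, 0, 0]
      fun z => if (2 : ℤ) ^ (8 * n) ∣ z - 3 ^ (33 * n) * b then 1 else 0 : ℕ) : ℝ) ≤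
      100000 * (11 ^ n) ^ 6 := fun b _ => by
    have := EY (8 * n) (3 ^ (33 * n) * b)
    have h3 : (100 : ℝ) ^ (8 * n) * ((E (8 * n) [0, 0, 0] [0, 0, 0]
      fun z => if (2 : ℤ) ^ (8 * n) ∣ z - 3 ^ (33 * n) * b then 1 else 0 : ℕ) : ℝ) ≤
        603 ^ (8 * n) * 100000 := by exact_mod_cast this
    refine le_of_mul_le_mul_left (h3.trans ?_) (by positivity : (0 : ℝ) < 100 ^ (8 * n))
    rw [← pow_mul, mul_comm n 6, pow_mul, pow_mul, pow_mul, mul_left_comm, ← mul_pow, mul_comm]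
    gcongr
    norm_num
  have h4 := Finset.sum_le_sum h2
  simp only [Finset.sum_const, Int.card_Icc, nsmul_eq_mul] at h4
  refine le_trans (Nat.cast_le.2 h1) ?_
  push_cast at h4 ⊢
  refine mul_le_mul_of_nonneg_left (h4.trans ?_) (by positivity)
  rw [mul_pow]
  have : (0 : ℝ) ≤ (11 ^ n) ^ 6 := by positivity
  norm_num
  nlinarith

end Pool.Agent.P.MP_9a799e_nt.Z
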