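import Mathlib

/-! Words of an eight state automaton containing the `3/2`-shift, and sums over tuples of words. -/

set_option autoImplicit false

namespace Pool.Agent.P.MP_9a799e_nt.Z

/-- the digit `1` is allowed in state `s` -/
def ok (s : ℕ) : Bool := Nat.beq s 0 || Nat.beq s 2

/-- the state after the digit `0` -/
def nx (s : ℕ) : ℕ := bif (Nat.beq s 0 || Nat.beq s 2 || Nat.beq s 7) then 0 else s + 1

/-- the values `∑ w i 2^i 3^(l-1-i)` of the words of length `l` read from state `s` -/
def C : ℕ → ℕ → Finset ℤ
  | 0, _ => {0}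
  | l + 1, s => (C l (nx s)).image (fun z => 2 * z) ∪
      if ok s then (C l (s + 1)).image (fun z => 3 ^ l + 2 * z) else ∅

/-- the sum of `φ (∑ η i * c i)` over all tuples `c i ∈ D i` -/
def F {R : Type} [AddCommMonoid R] : List (Finset ℤ × ℤ) → (ℤ → R) → R
  | [], φ => φ 0
  | a :: L, φ => ∑ c ∈ a.1, F L fun z => φ (a.2 * c + z)

/-- the sum over tuples of words of length `l` read from the states in `p` -/
def W {R : Type} [AddCommMonoid R] (l : ℕ) (p : List ℕ) (φ : ℤ → R) : R :=
  F (p.map fun s => (C l s, 1)) φ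

/-- the sum over the choices of first digits -/
def H : List ℕ → (List ℕ → ℕ → ℕ) → ℕ
  | [], ψ => ψ [] 0
  | s :: p, ψ => H p (fun p' i => ψ (nx s :: p') i) +
      bif ok s then H p (fun p' i => ψ ((s + 1) :: p') (i + 1)) else 0

/-- two groups of words, the second one with a minus sign -/
def E (l : ℕ) (p q : List ℕ) (φ : ℤ → ℕ) : ℕ := W l p fun x => W l q fun y => φ (x - y)

/-- a code of the multiset of states -/
def key : List ℕ → ℕ
  | [] => 0
  | s :: p => 8 ^ s + key p

/-- search trees -/
inductive Tr : Type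
  | nil : Tr
  | node : Tr → ℕ → ℕ → Tr → Tr

/-- table lookup -/
noncomputable def look (t : Tr) (x : ℕ) : ℕ :=
  Tr.rec (motive := fun _ => ℕ) 0
    (fun _ k v _ a b => bif Nat.blt x k then a else bif Nat.blt k x then b else v) t

/-- sorted triples of states -/
def S3 : List (List ℕ) :=
  (List.range 8).flatMap fun c => (List.range (c + 1)).flatMap fun b =>
    (List.range (b + 1)).map fun a => [a, b, c]

/-- the table value used for a successor in the energy over `ℤ` -/
noncomputable def vX (t : Tr) (p q : List ℕ) (z : ℕ) : ℕ :=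
  bif Nat.beq (z % 2) 0 && Nat.ble 4 z && Nat.ble z 8 then
    (bif Nat.beq (look t (key p * 2 ^ 26 + key q * 4 + (z / 2 - 2))) 0 then 2 ^ 40
      else look t (key p * 2 ^ 26 + key q * 4 + (z / 2 - 2)))
  else 0

/-- the check of one state for the energy over `ℤ` -/
noncomputable def chkX (t : Tr) (p q : List ℕ) (K : ℕ) : Bool :=
  Nat.beq (look t (key p * 2 ^ 26 + key q * 4 + K)) 0 ||
    (Nat.blt (look t (key p * 2 ^ 26 + key q * 4 + K)) (2 ^ 20) &&
      Nat.ble (25 * H p fun p' i => H q fun q' j => vX t p' q' (3 * K + j + 3 - i))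
        (122 * look t (key p * 2 ^ 26 + key q * 4 + K)))

/-- the check of one state for the energy modulo powers of two -/
noncomputable def chkY (t : Tr) (p q : List ℕ) (π : ℕ) : Bool :=
  Nat.ble 1 (look t (key p + key q)) &&
    Nat.ble (100 * H p fun p' i => H q fun q' j =>
        bif Nat.beq ((i + j + π) % 2) 0 then look t (key p' + key q') else 0)
      (603 * look t (key p + key q))

end Pool.Agent.P.MP_9a799e_nt.Z
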