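import Pool.Agent.P.MP_9a799e_nt.ZDefs

/-! A table of weights and its check. -/

set_option autoImplicit false
set_option maxRecDepth 100000

namespace Pool.Agent.P.MP_9a799e_nt.Z

def tY1 : Tr :=
  Tr.node (Tr.node (Tr.node (Tr.node (Tr.node (Tr.node (Tr.node Tr.nil 6 25851 Tr.nil) 13 12980
  (Tr.node Tr.nil 20 6653 Tr.nil)) 27 3493 (Tr.node (Tr.node Tr.nil 34 1943 Tr.nil) 41 1178
  Tr.nil)) 48 995 (Tr.node (Tr.node (Tr.node Tr.nil 69 19473 Tr.nil) 76 9812 (Tr.node Tr.nil 83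
  5066 Tr.nil)) 90 2731 (Tr.node (Tr.node Tr.nil 97 1607 Tr.nil) 104 1178 Tr.nil))) 132 14769
  (Tr.node (Tr.node (Tr.node (Tr.node Tr.nil 139 7501 Tr.nil) 146 3956 (Tr.node Tr.nil 153 2248
  Tr.nil)) 160 1518 (Tr.node (Tr.node Tr.nil 195 11302 Tr.nil) 202 5843 Tr.nil)) 209 3221 (Tr.node
  (Tr.node (Tr.node Tr.nil 216 2045 Tr.nil) 258 8779 Tr.nil) 265 4708 (Tr.node (Tr.node Tr.nil 272
  2842 Tr.nil) 321 7009 Tr.nil)))) 328 4047 (Tr.node (Tr.node (Tr.node (Tr.node (Tr.node Tr.nil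
  384 5903 Tr.nil) 517 3657 (Tr.node Tr.nil 524 1874 Tr.nil)) 531 987 (Tr.node (Tr.node Tr.nil 538
  556 Tr.nil) 545 341 Tr.nil)) 552 295 (Tr.node (Tr.node (Tr.node Tr.nil 580 2782 Tr.nil) 587 1436
  (Tr.node Tr.nil 594 777 Tr.nil)) 601 461 (Tr.node (Tr.node Tr.nil 608 341 Tr.nil) 643 2141
  Tr.nil))) 650 1128 (Tr.node (Tr.node (Tr.node (Tr.node Tr.nil 657 643 Tr.nil) 664 434 (Tr.node
  Tr.nil 706 1680 Tr.nil)) 713 923 (Tr.node (Tr.node Tr.nil 720 583 Tr.nil) 769 1361 Tr.nil)) 776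
  813 (Tr.node (Tr.node (Tr.node Tr.nil 832 1169 Tr.nil) 1028 599 Tr.nil) 1035 315 (Tr.node
  (Tr.node Tr.nil 1042 183 Tr.nil) 1049 116 Tr.nil))))) 1056 105 (Tr.node (Tr.node (Tr.node
  (Tr.node (Tr.node (Tr.node Tr.nil 1091 464 Tr.nil) 1098 252 (Tr.node Tr.nil 1105 154 Tr.nil))
  1112 116 (Tr.node (Tr.node Tr.nil 1154 372 Tr.nil) 1161 213 Tr.nil)) 1168 146 (Tr.node (Tr.node
  (Tr.node Tr.nil 1217 311 Tr.nil) 1224 196 (Tr.node Tr.nil 1280 280 Tr.nil)) 1539 116 (Tr.node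
  (Tr.node Tr.nil 1546 72 Tr.nil) 1553 48 Tr.nil))) 1560 46 (Tr.node (Tr.node (Tr.node (Tr.node
  Tr.nil 1602 97 Tr.nil) 1609 63 (Tr.node Tr.nil 1616 48 Tr.nil)) 1665 85 (Tr.node (Tr.node Tr.nil
  1672 59 Tr.nil) 1728 78 Tr.nil)) 2050 43 (Tr.node (Tr.node (Tr.node Tr.nil 2057 30 Tr.nil) 2064
  30 Tr.nil) 2113 39 (Tr.node (Tr.node Tr.nil 2120 30 Tr.nil) 2176 38 Tr.nil)))) 2561 22 (Tr.node
  (Tr.node (Tr.node (Tr.node (Tr.node Tr.nil 2568 22 Tr.nil) 2624 22 (Tr.node Tr.nil 3072 22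
  Tr.nil)) 4101 5349 (Tr.node (Tr.node Tr.nil 4108 2721 Tr.nil) 4115 1420 Tr.nil)) 4122 794
  (Tr.node (Tr.node (Tr.node Tr.nil 4129 480 Tr.nil) 4136 413 (Tr.node Tr.nil 4164 4049 Tr.nil))
  4171 2074 (Tr.node (Tr.node Tr.nil 4178 1113 Tr.nil) 4185 654 Tr.nil))) 4192 480 (Tr.node
  (Tr.node (Tr.node (Tr.node Tr.nil 4227 3103 Tr.nil) 4234 1622 (Tr.node Tr.nil 4241 917 Tr.nil))
  4248 617 (Tr.node (Tr.node Tr.nil 4290 2424 Tr.nil) 4297 1324 Tr.nil)) 4304 833 (Tr.node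
  (Tr.node (Tr.node Tr.nil 4353 1959 Tr.nil) 4360 1166 Tr.nil) 4416 1683 (Tr.node (Tr.node Tr.nil
  4612 830 Tr.nil) 4619 429 Tr.nil)))))

def tY2 : Tr :=
  Tr.node (Tr.node (Tr.node (Tr.node (Tr.node (Tr.node (Tr.node Tr.nil 4633 152 Tr.nil) 4640 135
  (Tr.node Tr.nil 4675 639 Tr.nil)) 4682 341 (Tr.node (Tr.node Tr.nil 4689 204 Tr.nil) 4696 152
  Tr.nil)) 4738 508 (Tr.node (Tr.node (Tr.node Tr.nil 4745 285 Tr.nil) 4752 193 (Tr.node Tr.nil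
  4801 421 Tr.nil)) 4808 261 (Tr.node (Tr.node Tr.nil 4864 376 Tr.nil) 5123 149 Tr.nil))) 5130 90
  (Tr.node (Tr.node (Tr.node (Tr.node Tr.nil 5137 58 Tr.nil) 5144 54 (Tr.node Tr.nil 5186 122
  Tr.nil)) 5193 77 (Tr.node (Tr.node Tr.nil 5200 58 Tr.nil) 5249 105 Tr.nil)) 5256 73 (Tr.node
  (Tr.node (Tr.node Tr.nil 5312 97 Tr.nil) 5634 48 Tr.nil) 5641 33 (Tr.node (Tr.node Tr.nil 5648
  32 Tr.nil) 5697 43 Tr.nil)))) 5704 33 (Tr.node (Tr.node (Tr.node (Tr.node (Tr.node Tr.nil 5760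
  42 Tr.nil) 6145 23 (Tr.node Tr.nil 6152 23 Tr.nil)) 6208 23 (Tr.node (Tr.node Tr.nil 6656 22
  Tr.nil) 8196 1218 Tr.nil)) 8203 623 (Tr.node (Tr.node (Tr.node Tr.nil 8210 352 Tr.nil) 8217 214
  (Tr.node Tr.nil 8224 188 Tr.nil)) 8259 932 (Tr.node (Tr.node Tr.nil 8266 492 Tr.nil) 8273 290
  Tr.nil))) 8280 214 (Tr.node (Tr.node (Tr.node (Tr.node Tr.nil 8322 735 Tr.nil) 8329 408 (Tr.node
  Tr.nil 8336 274 Tr.nil)) 8385 606 (Tr.node (Tr.node Tr.nil 8392 373 Tr.nil) 8448 538 Tr.nil))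
  8707 204 (Tr.node (Tr.node (Tr.node Tr.nil 8714 121 Tr.nil) 8721 76 Tr.nil) 8728 70 (Tr.node
  (Tr.node Tr.nil 8770 165 Tr.nil) 8777 101 Tr.nil))))) 8784 76 (Tr.node (Tr.node (Tr.node
  (Tr.node (Tr.node (Tr.node Tr.nil 8833 140 Tr.nil) 8840 95 (Tr.node Tr.nil 8896 128 Tr.nil))
  9218 59 (Tr.node (Tr.node Tr.nil 9225 38 Tr.nil) 9232 37 Tr.nil)) 9281 51 (Tr.node (Tr.node
  (Tr.node Tr.nil 9288 38 Tr.nil) 9344 49 (Tr.node Tr.nil 9729 25 Tr.nil)) 9736 25 (Tr.node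
  (Tr.node Tr.nil 9792 25 Tr.nil) 10240 23 Tr.nil))) 12291 293 (Tr.node (Tr.node (Tr.node (Tr.node
  Tr.nil 12298 170 Tr.nil) 12305 104 (Tr.node Tr.nil 12312 95 Tr.nil)) 12354 234 (Tr.node (Tr.node
  Tr.nil 12361 140 Tr.nil) 12368 104 Tr.nil)) 12417 196 (Tr.node (Tr.node (Tr.node Tr.nil 12424
  132 Tr.nil) 12480 179 Tr.nil) 12802 77 (Tr.node (Tr.node Tr.nil 12809 47 Tr.nil) 12816 45
  Tr.nil)))) 12865 65 (Tr.node (Tr.node (Tr.node (Tr.node (Tr.node Tr.nil 12872 47 Tr.nil) 12928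
  62 (Tr.node Tr.nil 13313 28 Tr.nil)) 13320 28 (Tr.node (Tr.node Tr.nil 13376 28 Tr.nil) 13824 25
  Tr.nil)) 16386 104 (Tr.node (Tr.node (Tr.node Tr.nil 16393 61 Tr.nil) 16400 57 Tr.nil) 16449 87
  (Tr.node (Tr.node Tr.nil 16456 61 Tr.nil) 16512 83 Tr.nil))) 16897 32 (Tr.node (Tr.node (Tr.node
  (Tr.node Tr.nil 16904 32 Tr.nil) 16960 32 (Tr.node Tr.nil 17408 28 Tr.nil)) 20481 39 (Tr.node
  (Tr.node Tr.nil 20488 39 Tr.nil) 20544 39 Tr.nil)) 20992 32 (Tr.node (Tr.node (Tr.node Tr.nil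
  24576 39 Tr.nil) 32773 7902 Tr.nil) 32780 4004 (Tr.node (Tr.node Tr.nil 32787 2079 Tr.nil) 32794
  1154 Tr.nil)))))

def tY3 : Tr :=
  Tr.node (Tr.node (Tr.node (Tr.node (Tr.node (Tr.node (Tr.node Tr.nil 32808 597 Tr.nil) 32836
  5940 (Tr.node Tr.nil 32843 3026 Tr.nil)) 32850 1613 (Tr.node (Tr.node Tr.nil 32857 943 Tr.nil)
  32864 693 Tr.nil)) 32899 4516 (Tr.node (Tr.node (Tr.node Tr.nil 32906 2346 Tr.nil) 32913 1318
  (Tr.node Tr.nil 32920 887 Tr.nil)) 32962 3496 (Tr.node (Tr.node Tr.nil 32969 1898 Tr.nil) 32976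
  1193 Tr.nil))) 33025 2799 (Tr.node (Tr.node (Tr.node (Tr.node Tr.nil 33032 1665 Tr.nil) 33088
  2392 (Tr.node Tr.nil 33284 1186 Tr.nil)) 33291 606 (Tr.node (Tr.node Tr.nil 33298 341 Tr.nil)
  33305 207 Tr.nil)) 33312 184 (Tr.node (Tr.node (Tr.node Tr.nil 33347 900 Tr.nil) 33354 474
  Tr.nil) 33361 279 (Tr.node (Tr.node Tr.nil 33368 207 Tr.nil) 33410 702 Tr.nil)))) 33417 390
  (Tr.node (Tr.node (Tr.node (Tr.node (Tr.node Tr.nil 33424 262 Tr.nil) 33473 571 (Tr.node Tr.nil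
  33480 353 Tr.nil)) 33536 502 (Tr.node (Tr.node Tr.nil 33795 203 Tr.nil) 33802 119 Tr.nil)) 33809
  75 (Tr.node (Tr.node (Tr.node Tr.nil 33816 70 Tr.nil) 33858 162 (Tr.node Tr.nil 33865 99
  Tr.nil)) 33872 75 (Tr.node (Tr.node Tr.nil 33921 136 Tr.nil) 33928 93 Tr.nil))) 33984 125
  (Tr.node (Tr.node (Tr.node (Tr.node Tr.nil 34306 57 Tr.nil) 34313 37 (Tr.node Tr.nil 34320 36
  Tr.nil)) 34369 49 (Tr.node (Tr.node Tr.nil 34376 37 Tr.nil) 34432 46 Tr.nil)) 34817 25 (Tr.node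
  (Tr.node (Tr.node Tr.nil 34824 25 Tr.nil) 34880 25 Tr.nil) 35328 22 (Tr.node (Tr.node Tr.nil
  36868 1730 Tr.nil) 36875 875 Tr.nil))))) 36882 487 (Tr.node (Tr.node (Tr.node (Tr.node (Tr.node
  (Tr.node Tr.nil 36889 291 Tr.nil) 36896 257 (Tr.node Tr.nil 36931 1304 Tr.nil)) 36938 680
  (Tr.node (Tr.node Tr.nil 36945 396 Tr.nil) 36952 291 Tr.nil)) 36994 1012 (Tr.node (Tr.node
  (Tr.node Tr.nil 37001 556 Tr.nil) 37008 371 (Tr.node Tr.nil 37057 819 Tr.nil)) 37064 503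
  (Tr.node (Tr.node Tr.nil 37120 719 Tr.nil) 37379 276 Tr.nil))) 37386 159 (Tr.node (Tr.node
  (Tr.node (Tr.node Tr.nil 37393 97 Tr.nil) 37400 89 (Tr.node Tr.nil 37442 218 Tr.nil)) 37449 130
  (Tr.node (Tr.node Tr.nil 37456 97 Tr.nil) 37505 181 Tr.nil)) 37512 122 (Tr.node (Tr.node
  (Tr.node Tr.nil 37568 165 Tr.nil) 37890 70 Tr.nil) 37897 43 (Tr.node (Tr.node Tr.nil 37904 41
  Tr.nil) 37953 59 Tr.nil)))) 37960 43 (Tr.node (Tr.node (Tr.node (Tr.node (Tr.node Tr.nil 38016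
  55 Tr.nil) 38401 27 (Tr.node Tr.nil 38408 27 Tr.nil)) 38464 27 (Tr.node (Tr.node Tr.nil 38912 23
  Tr.nil) 40963 398 Tr.nil)) 40970 226 (Tr.node (Tr.node (Tr.node Tr.nil 40977 134 Tr.nil) 40984
  122 (Tr.node Tr.nil 41026 311 Tr.nil)) 41033 183 (Tr.node (Tr.node Tr.nil 41040 134 Tr.nil)
  41089 256 Tr.nil))) 41096 171 (Tr.node (Tr.node (Tr.node (Tr.node Tr.nil 41152 232 Tr.nil) 41474
  92 (Tr.node Tr.nil 41481 54 Tr.nil)) 41488 51 (Tr.node (Tr.node Tr.nil 41537 76 Tr.nil) 41544 54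
  Tr.nil)) 41600 71 (Tr.node (Tr.node (Tr.node Tr.nil 41985 30 Tr.nil) 41992 30 Tr.nil) 42048 30
  (Tr.node (Tr.node Tr.nil 42496 25 Tr.nil) 45058 127 Tr.nil)))))

def tY4 : Tr :=
  Tr.node (Tr.node (Tr.node (Tr.node (Tr.node (Tr.node (Tr.node Tr.nil 45072 68 Tr.nil) 45121 103
  (Tr.node Tr.nil 45128 72 Tr.nil)) 45184 96 (Tr.node (Tr.node Tr.nil 45569 35 Tr.nil) 45576 35
  Tr.nil)) 45632 35 (Tr.node (Tr.node (Tr.node Tr.nil 46080 28 Tr.nil) 49153 44 (Tr.node Tr.nil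
  49160 44 Tr.nil)) 49216 44 (Tr.node (Tr.node Tr.nil 49664 32 Tr.nil) 53248 39 Tr.nil))) 65540
  2573 (Tr.node (Tr.node (Tr.node (Tr.node Tr.nil 65547 1295 Tr.nil) 65554 716 (Tr.node Tr.nil
  65561 424 Tr.nil)) 65568 374 (Tr.node (Tr.node Tr.nil 65603 1927 Tr.nil) 65610 999 Tr.nil))
  65617 577 (Tr.node (Tr.node (Tr.node Tr.nil 65624 424 Tr.nil) 65666 1483 Tr.nil) 65673 810
  (Tr.node (Tr.node Tr.nil 65680 540 Tr.nil) 65729 1192 Tr.nil)))) 65736 731 (Tr.node (Tr.node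
  (Tr.node (Tr.node (Tr.node Tr.nil 65792 1040 Tr.nil) 66051 397 (Tr.node Tr.nil 66058 226
  Tr.nil)) 66065 134 (Tr.node (Tr.node Tr.nil 66072 122 Tr.nil) 66114 310 Tr.nil)) 66121 182
  (Tr.node (Tr.node (Tr.node Tr.nil 66128 134 Tr.nil) 66177 254 (Tr.node Tr.nil 66184 170 Tr.nil))
  66240 229 (Tr.node (Tr.node Tr.nil 66562 92 Tr.nil) 66569 54 Tr.nil))) 66576 52 (Tr.node
  (Tr.node (Tr.node (Tr.node Tr.nil 66625 75 Tr.nil) 66632 54 (Tr.node Tr.nil 66688 70 Tr.nil))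
  67073 31 (Tr.node (Tr.node Tr.nil 67080 31 Tr.nil) 67136 31 Tr.nil)) 67584 25 (Tr.node (Tr.node
  (Tr.node Tr.nil 69635 574 Tr.nil) 69642 321 Tr.nil) 69649 187 (Tr.node (Tr.node Tr.nil 69656 169
  Tr.nil) 69698 444 Tr.nil))))) 69705 256 (Tr.node (Tr.node (Tr.node (Tr.node (Tr.node (Tr.node
  Tr.nil 69712 187 Tr.nil) 69761 361 (Tr.node Tr.nil 69768 239 Tr.nil)) 69824 325 (Tr.node
  (Tr.node Tr.nil 70146 122 Tr.nil) 70153 69 Tr.nil)) 70160 65 (Tr.node (Tr.node (Tr.node Tr.nil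
  70209 97 Tr.nil) 70216 69 (Tr.node Tr.nil 70272 90 Tr.nil)) 70657 35 (Tr.node (Tr.node Tr.nil
  70664 35 Tr.nil) 70720 35 Tr.nil))) 71168 27 (Tr.node (Tr.node (Tr.node (Tr.node Tr.nil 73730
  172 Tr.nil) 73737 94 (Tr.node Tr.nil 73744 88 Tr.nil)) 73793 135 (Tr.node (Tr.node Tr.nil 73800
  94 Tr.nil) 73856 124 Tr.nil)) 74241 42 (Tr.node (Tr.node (Tr.node Tr.nil 74248 42 Tr.nil) 74304
  42 Tr.nil) 74752 30 (Tr.node (Tr.node Tr.nil 77825 54 Tr.nil) 77832 54 Tr.nil)))) 77888 54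
  (Tr.node (Tr.node (Tr.node (Tr.node (Tr.node Tr.nil 78336 35 Tr.nil) 81920 44 (Tr.node Tr.nil
  98307 854 Tr.nil)) 98314 474 (Tr.node (Tr.node Tr.nil 98321 272 Tr.nil) 98328 246 Tr.nil)) 98370
  656 (Tr.node (Tr.node (Tr.node Tr.nil 98377 376 Tr.nil) 98384 272 Tr.nil) 98433 530 (Tr.node
  (Tr.node Tr.nil 98440 348 Tr.nil) 98496 476 Tr.nil))) 98818 172 (Tr.node (Tr.node (Tr.node
  (Tr.node Tr.nil 98825 94 Tr.nil) 98832 88 (Tr.node Tr.nil 98881 135 Tr.nil)) 98888 94 (Tr.node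
  (Tr.node Tr.nil 98944 124 Tr.nil) 99329 43 Tr.nil)) 99336 43 (Tr.node (Tr.node (Tr.node Tr.nil
  99392 43 Tr.nil) 99840 31 Tr.nil) 102402 244 (Tr.node (Tr.node Tr.nil 102409 129 Tr.nil) 102416
  121 Tr.nil)))))

def tY5 : Tr :=
  Tr.node (Tr.node (Tr.node (Tr.node (Tr.node (Tr.node (Tr.node Tr.nil 102472 129 Tr.nil) 102528
  173 (Tr.node Tr.nil 102913 53 Tr.nil)) 102920 53 (Tr.node (Tr.node Tr.nil 102976 53 Tr.nil)
  103424 35 Tr.nil)) 106497 70 (Tr.node (Tr.node (Tr.node Tr.nil 106504 70 Tr.nil) 106560 70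
  (Tr.node Tr.nil 107008 42 Tr.nil)) 110592 54 (Tr.node (Tr.node Tr.nil 131074 359 Tr.nil) 131081
  186 Tr.nil))) 131088 173 (Tr.node (Tr.node (Tr.node (Tr.node Tr.nil 131137 274 Tr.nil) 131144
  186 (Tr.node Tr.nil 131200 250 Tr.nil)) 131585 71 (Tr.node (Tr.node Tr.nil 131592 71 Tr.nil)
  131648 71 Tr.nil)) 132096 43 (Tr.node (Tr.node (Tr.node Tr.nil 135169 96 Tr.nil) 135176 96
  Tr.nil) 135232 96 (Tr.node (Tr.node Tr.nil 135680 53 Tr.nil) 139264 70 Tr.nil)))) 163841 137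
  (Tr.node (Tr.node (Tr.node (Tr.node (Tr.node Tr.nil 163848 137 Tr.nil) 163904 137 (Tr.node
  Tr.nil 164352 71 Tr.nil)) 167936 96 (Tr.node (Tr.node Tr.nil 196608 137 Tr.nil) 262149 11399
  Tr.nil)) 262156 5870 (Tr.node (Tr.node (Tr.node Tr.nil 262163 3093 Tr.nil) 262170 1730 (Tr.node
  Tr.nil 262177 1044 Tr.nil)) 262184 900 (Tr.node (Tr.node Tr.nil 262212 8582 Tr.nil) 262219 4447
  Tr.nil))) 262226 2403 (Tr.node (Tr.node (Tr.node (Tr.node Tr.nil 262233 1414 Tr.nil) 262240 1044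
  (Tr.node Tr.nil 262275 6539 Tr.nil)) 262282 3457 (Tr.node (Tr.node Tr.nil 262289 1967 Tr.nil)
  262296 1331 Tr.nil)) 262338 5079 (Tr.node (Tr.node (Tr.node Tr.nil 262345 2805 Tr.nil) 262352
  1783 Tr.nil) 262401 4083 (Tr.node (Tr.node Tr.nil 262408 2468 Tr.nil) 262464 3506 Tr.nil)))))
  262660 1656 (Tr.node (Tr.node (Tr.node (Tr.node (Tr.node (Tr.node Tr.nil 262667 876 Tr.nil)
  262674 498 (Tr.node Tr.nil 262681 304 Tr.nil)) 262688 270 (Tr.node (Tr.node Tr.nil 262723 1261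
  Tr.nil) 262730 685 Tr.nil)) 262737 408 (Tr.node (Tr.node (Tr.node Tr.nil 262744 304 Tr.nil)
  262786 986 (Tr.node Tr.nil 262793 562 Tr.nil)) 262800 382 (Tr.node (Tr.node Tr.nil 262849 804
  Tr.nil) 262856 508 Tr.nil))) 262912 706 (Tr.node (Tr.node (Tr.node (Tr.node Tr.nil 263171 279
  Tr.nil) 263178 165 (Tr.node Tr.nil 263185 104 Tr.nil)) 263192 97 (Tr.node (Tr.node Tr.nil 263234
  222 Tr.nil) 263241 136 Tr.nil)) 263248 104 (Tr.node (Tr.node (Tr.node Tr.nil 263297 186 Tr.nil)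
  263304 129 Tr.nil) 263360 171 (Tr.node (Tr.node Tr.nil 263682 67 Tr.nil) 263689 45 Tr.nil))))
  263696 43 (Tr.node (Tr.node (Tr.node (Tr.node (Tr.node Tr.nil 263745 57 Tr.nil) 263752 45
  (Tr.node Tr.nil 263808 54 Tr.nil)) 264193 29 (Tr.node (Tr.node Tr.nil 264200 29 Tr.nil) 264256
  29 Tr.nil)) 264704 22 (Tr.node (Tr.node (Tr.node Tr.nil 266244 2406 Tr.nil) 266251 1262 (Tr.node
  Tr.nil 266258 712 Tr.nil)) 266265 429 (Tr.node (Tr.node Tr.nil 266272 379 Tr.nil) 266307 1821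
  Tr.nil))) 266314 981 (Tr.node (Tr.node (Tr.node (Tr.node Tr.nil 266321 579 Tr.nil) 266328 429
  (Tr.node Tr.nil 266370 1418 Tr.nil)) 266377 803 (Tr.node (Tr.node Tr.nil 266384 543 Tr.nil)
  266433 1153 Tr.nil)) 266440 727 (Tr.node (Tr.node (Tr.node Tr.nil 266496 1014 Tr.nil) 266755 380
  Tr.nil) 266762 221 (Tr.node (Tr.node Tr.nil 266769 136 Tr.nil) 266776 125 Tr.nil)))))

def tY6 : Tr :=
  Tr.node (Tr.node (Tr.node (Tr.node (Tr.node (Tr.node (Tr.node Tr.nil 266825 181 Tr.nil) 266832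
  136 (Tr.node Tr.nil 266881 249 Tr.nil)) 266888 170 (Tr.node (Tr.node Tr.nil 266944 227 Tr.nil)
  267266 83 Tr.nil)) 267273 54 (Tr.node (Tr.node (Tr.node Tr.nil 267280 52 Tr.nil) 267329 70
  (Tr.node Tr.nil 267336 54 Tr.nil)) 267392 66 (Tr.node (Tr.node Tr.nil 267777 31 Tr.nil) 267784
  31 Tr.nil))) 267840 31 (Tr.node (Tr.node (Tr.node (Tr.node Tr.nil 268288 23 Tr.nil) 270339 550
  (Tr.node Tr.nil 270346 317 Tr.nil)) 270353 192 (Tr.node (Tr.node Tr.nil 270360 175 Tr.nil)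
  270402 431 Tr.nil)) 270409 257 (Tr.node (Tr.node (Tr.node Tr.nil 270416 192 Tr.nil) 270465 355
  Tr.nil) 270472 241 (Tr.node (Tr.node Tr.nil 270528 323 Tr.nil) 270850 111 Tr.nil)))) 270857 69
  (Tr.node (Tr.node (Tr.node (Tr.node (Tr.node Tr.nil 270864 66 Tr.nil) 270913 92 (Tr.node Tr.nil
  270920 69 Tr.nil)) 270976 86 (Tr.node (Tr.node Tr.nil 271361 35 Tr.nil) 271368 35 Tr.nil))
  271424 35 (Tr.node (Tr.node (Tr.node Tr.nil 271872 25 Tr.nil) 274434 156 (Tr.node Tr.nil 274441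
  94 Tr.nil)) 274448 90 (Tr.node (Tr.node Tr.nil 274497 126 Tr.nil) 274504 94 Tr.nil))) 274560 118
  (Tr.node (Tr.node (Tr.node (Tr.node Tr.nil 274945 43 Tr.nil) 274952 43 (Tr.node Tr.nil 275008 43
  Tr.nil)) 275456 28 (Tr.node (Tr.node Tr.nil 278529 55 Tr.nil) 278536 55 Tr.nil)) 278592 55
  (Tr.node (Tr.node (Tr.node Tr.nil 279040 32 Tr.nil) 282624 39 Tr.nil) 294916 3550 (Tr.node
  (Tr.node Tr.nil 294923 1853 Tr.nil) 294930 1039 Tr.nil))))) 294937 621 (Tr.node (Tr.node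
  (Tr.node (Tr.node (Tr.node (Tr.node Tr.nil 294944 550 Tr.nil) 294979 2666 (Tr.node Tr.nil 294986
  1428 Tr.nil)) 294993 837 (Tr.node (Tr.node Tr.nil 295000 621 Tr.nil) 295042 2058 Tr.nil)) 295049
  1159 (Tr.node (Tr.node (Tr.node Tr.nil 295056 784 Tr.nil) 295105 1659 (Tr.node Tr.nil 295112
  1046 Tr.nil)) 295168 1452 (Tr.node (Tr.node Tr.nil 295427 539 Tr.nil) 295434 309 Tr.nil)))
  295441 187 (Tr.node (Tr.node (Tr.node (Tr.node Tr.nil 295448 172 Tr.nil) 295490 419 (Tr.node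
  Tr.nil 295497 249 Tr.nil)) 295504 187 (Tr.node (Tr.node Tr.nil 295553 342 Tr.nil) 295560 233
  Tr.nil)) 295616 308 (Tr.node (Tr.node (Tr.node Tr.nil 295938 110 Tr.nil) 295945 69 Tr.nil)
  295952 66 (Tr.node (Tr.node Tr.nil 296001 90 Tr.nil) 296008 69 Tr.nil)))) 296064 84 (Tr.node
  (Tr.node (Tr.node (Tr.node (Tr.node Tr.nil 296449 34 Tr.nil) 296456 34 (Tr.node Tr.nil 296512 34
  Tr.nil)) 296960 25 (Tr.node (Tr.node Tr.nil 299011 777 Tr.nil) 299018 442 Tr.nil)) 299025 263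
  (Tr.node (Tr.node (Tr.node Tr.nil 299032 240 Tr.nil) 299074 600 Tr.nil) 299081 353 (Tr.node
  (Tr.node Tr.nil 299088 263 Tr.nil) 299137 487 Tr.nil))) 299144 329 (Tr.node (Tr.node (Tr.node
  (Tr.node Tr.nil 299200 439 Tr.nil) 299522 147 (Tr.node Tr.nil 299529 88 Tr.nil)) 299536 85
  (Tr.node (Tr.node Tr.nil 299585 118 Tr.nil) 299592 88 Tr.nil)) 299648 110 (Tr.node (Tr.node
  (Tr.node Tr.nil 300033 40 Tr.nil) 300040 40 Tr.nil) 300096 40 (Tr.node (Tr.node Tr.nil 300544 27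
  Tr.nil) 303106 208 Tr.nil)))))

def tY7 : Tr :=
  Tr.node (Tr.node (Tr.node (Tr.node (Tr.node (Tr.node (Tr.node Tr.nil 303120 116 Tr.nil) 303169
  165 (Tr.node Tr.nil 303176 122 Tr.nil)) 303232 153 (Tr.node (Tr.node Tr.nil 303617 50 Tr.nil)
  303624 50 Tr.nil)) 303680 50 (Tr.node (Tr.node (Tr.node Tr.nil 304128 30 Tr.nil) 307201 65
  (Tr.node Tr.nil 307208 65 Tr.nil)) 307264 65 (Tr.node (Tr.node Tr.nil 307712 35 Tr.nil) 311296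
  44 Tr.nil))) 327683 1153 (Tr.node (Tr.node (Tr.node (Tr.node Tr.nil 327690 651 Tr.nil) 327697
  383 (Tr.node Tr.nil 327704 351 Tr.nil)) 327746 883 (Tr.node (Tr.node Tr.nil 327753 516 Tr.nil)
  327760 383 Tr.nil)) 327809 712 (Tr.node (Tr.node (Tr.node Tr.nil 327816 480 Tr.nil) 327872 640
  Tr.nil) 328194 208 (Tr.node (Tr.node Tr.nil 328201 122 Tr.nil) 328208 116 Tr.nil)))) 328257 164
  (Tr.node (Tr.node (Tr.node (Tr.node (Tr.node Tr.nil 328264 122 Tr.nil) 328320 152 (Tr.node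
  Tr.nil 328705 50 Tr.nil)) 328712 50 (Tr.node (Tr.node Tr.nil 328768 50 Tr.nil) 329216 31
  Tr.nil)) 331778 296 (Tr.node (Tr.node (Tr.node Tr.nil 331785 170 Tr.nil) 331792 161 (Tr.node
  Tr.nil 331841 231 Tr.nil)) 331848 170 (Tr.node (Tr.node Tr.nil 331904 213 Tr.nil) 332289 63
  Tr.nil))) 332296 63 (Tr.node (Tr.node (Tr.node (Tr.node Tr.nil 332352 63 Tr.nil) 332800 35
  (Tr.node Tr.nil 335873 85 Tr.nil)) 335880 85 (Tr.node (Tr.node Tr.nil 335936 85 Tr.nil) 336384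
  42 Tr.nil)) 339968 54 (Tr.node (Tr.node (Tr.node Tr.nil 360450 437 Tr.nil) 360457 247 Tr.nil)
  360464 234 (Tr.node (Tr.node Tr.nil 360513 338 Tr.nil) 360520 247 Tr.nil))))) 360576 311
  (Tr.node (Tr.node (Tr.node (Tr.node (Tr.node (Tr.node Tr.nil 360961 85 Tr.nil) 360968 85
  (Tr.node Tr.nil 361024 85 Tr.nil)) 361472 43 (Tr.node (Tr.node Tr.nil 364545 117 Tr.nil) 364552
  117 Tr.nil)) 364608 117 (Tr.node (Tr.node (Tr.node Tr.nil 365056 53 Tr.nil) 368640 70 (Tr.node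
  Tr.nil 393217 167 Tr.nil)) 393224 167 (Tr.node (Tr.node Tr.nil 393280 167 Tr.nil) 393728 71
  Tr.nil))) 397312 96 (Tr.node (Tr.node (Tr.node (Tr.node Tr.nil 425984 137 Tr.nil) 524292 5231
  (Tr.node Tr.nil 524299 2768 Tr.nil)) 524306 1559 (Tr.node (Tr.node Tr.nil 524313 936 Tr.nil)
  524320 830 Tr.nil)) 524355 3937 (Tr.node (Tr.node (Tr.node Tr.nil 524362 2135 Tr.nil) 524369
  1258 Tr.nil) 524376 936 (Tr.node (Tr.node Tr.nil 524418 3046 Tr.nil) 524425 1735 Tr.nil))))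
  524432 1178 (Tr.node (Tr.node (Tr.node (Tr.node (Tr.node Tr.nil 524481 2461 Tr.nil) 524488 1567
  (Tr.node Tr.nil 524544 2161 Tr.nil)) 524803 788 (Tr.node (Tr.node Tr.nil 524810 453 Tr.nil)
  524817 275 Tr.nil)) 524824 253 (Tr.node (Tr.node (Tr.node Tr.nil 524866 611 Tr.nil) 524873 365
  Tr.nil) 524880 275 (Tr.node (Tr.node Tr.nil 524929 498 Tr.nil) 524936 340 Tr.nil))) 524992 448
  (Tr.node (Tr.node (Tr.node (Tr.node Tr.nil 525314 153 Tr.nil) 525321 96 (Tr.node Tr.nil 525328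
  92 Tr.nil)) 525377 124 (Tr.node (Tr.node Tr.nil 525384 96 Tr.nil) 525440 116 Tr.nil)) 525825 42
  (Tr.node (Tr.node (Tr.node Tr.nil 525832 42 Tr.nil) 525888 42 Tr.nil) 526336 29 (Tr.node
  (Tr.node Tr.nil 528387 1135 Tr.nil) 528394 648 Tr.nil)))))

def tY8 : Tr :=
  Tr.node (Tr.node (Tr.node (Tr.node (Tr.node (Tr.node (Tr.node Tr.nil 528408 355 Tr.nil) 528450
  875 (Tr.node Tr.nil 528457 518 Tr.nil)) 528464 388 (Tr.node (Tr.node Tr.nil 528513 711 Tr.nil)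
  528520 483 Tr.nil)) 528576 641 (Tr.node (Tr.node (Tr.node Tr.nil 528898 204 Tr.nil) 528905 125
  (Tr.node Tr.nil 528912 119 Tr.nil)) 528961 164 (Tr.node (Tr.node Tr.nil 528968 125 Tr.nil)
  529024 153 Tr.nil))) 529409 50 (Tr.node (Tr.node (Tr.node (Tr.node Tr.nil 529416 50 Tr.nil)
  529472 50 (Tr.node Tr.nil 529920 31 Tr.nil)) 532482 292 (Tr.node (Tr.node Tr.nil 532489 175
  Tr.nil) 532496 167 Tr.nil)) 532545 232 (Tr.node (Tr.node (Tr.node Tr.nil 532552 175 Tr.nil)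
  532608 216 Tr.nil) 532993 65 (Tr.node (Tr.node Tr.nil 533000 65 Tr.nil) 533056 65 Tr.nil))))
  533504 35 (Tr.node (Tr.node (Tr.node (Tr.node (Tr.node Tr.nil 536577 88 Tr.nil) 536584 88
  (Tr.node Tr.nil 536640 88 Tr.nil)) 537088 43 (Tr.node (Tr.node Tr.nil 540672 55 Tr.nil) 557059
  1671 Tr.nil)) 557066 949 (Tr.node (Tr.node (Tr.node Tr.nil 557073 564 Tr.nil) 557080 517
  (Tr.node Tr.nil 557122 1278 Tr.nil)) 557129 752 (Tr.node (Tr.node Tr.nil 557136 564 Tr.nil)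
  557185 1029 Tr.nil))) 557192 700 (Tr.node (Tr.node (Tr.node (Tr.node Tr.nil 557248 924 Tr.nil)
  557570 287 (Tr.node Tr.nil 557577 172 Tr.nil)) 557584 164 (Tr.node (Tr.node Tr.nil 557633 227
  Tr.nil) 557640 172 Tr.nil)) 557696 210 (Tr.node (Tr.node (Tr.node Tr.nil 558081 64 Tr.nil)
  558088 64 Tr.nil) 558144 64 (Tr.node (Tr.node Tr.nil 558592 34 Tr.nil) 561154 409 Tr.nil)))))
  561161 241 (Tr.node (Tr.node (Tr.node (Tr.node (Tr.node (Tr.node Tr.nil 561168 230 Tr.nil)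
  561217 320 (Tr.node Tr.nil 561224 241 Tr.nil)) 561280 296 (Tr.node (Tr.node Tr.nil 561665 82
  Tr.nil) 561672 82 Tr.nil)) 561728 82 (Tr.node (Tr.node (Tr.node Tr.nil 562176 40 Tr.nil) 565249
  113 (Tr.node Tr.nil 565256 113 Tr.nil)) 565312 113 (Tr.node (Tr.node Tr.nil 565760 50 Tr.nil)
  569344 65 Tr.nil))) 589826 603 (Tr.node (Tr.node (Tr.node (Tr.node Tr.nil 589833 352 Tr.nil)
  589840 336 (Tr.node Tr.nil 589889 468 Tr.nil)) 589896 352 (Tr.node (Tr.node Tr.nil 589952 432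
  Tr.nil) 590337 113 Tr.nil)) 590344 113 (Tr.node (Tr.node (Tr.node Tr.nil 590400 113 Tr.nil)
  590848 50 Tr.nil) 593921 157 (Tr.node (Tr.node Tr.nil 593928 157 Tr.nil) 593984 157 Tr.nil))))
  594432 63 (Tr.node (Tr.node (Tr.node (Tr.node (Tr.node Tr.nil 598016 85 Tr.nil) 622593 228
  (Tr.node Tr.nil 622600 228 Tr.nil)) 622656 228 (Tr.node (Tr.node Tr.nil 623104 85 Tr.nil) 626688
  117 Tr.nil)) 655360 167 (Tr.node (Tr.node (Tr.node Tr.nil 786435 2505 Tr.nil) 786442 1424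
  Tr.nil) 786449 849 (Tr.node (Tr.node Tr.nil 786456 779 Tr.nil) 786498 1915 Tr.nil))) 786505 1130
  (Tr.node (Tr.node (Tr.node (Tr.node Tr.nil 786512 849 Tr.nil) 786561 1543 (Tr.node Tr.nil 786568
  1052 Tr.nil)) 786624 1387 (Tr.node (Tr.node Tr.nil 786946 420 Tr.nil) 786953 253 Tr.nil)) 786960
  242 (Tr.node (Tr.node (Tr.node Tr.nil 787009 332 Tr.nil) 787016 253 Tr.nil) 787072 307 (Tr.node
  (Tr.node Tr.nil 787457 89 Tr.nil) 787464 89 Tr.nil)))))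

def tY9 : Tr :=
  Tr.node (Tr.node (Tr.node (Tr.node (Tr.node (Tr.node (Tr.node Tr.nil 787968 42 Tr.nil) 790530
  600 (Tr.node Tr.nil 790537 356 Tr.nil)) 790544 340 (Tr.node (Tr.node Tr.nil 790593 470 Tr.nil)
  790600 356 Tr.nil)) 790656 435 (Tr.node (Tr.node (Tr.node Tr.nil 791041 116 Tr.nil) 791048 116
  (Tr.node Tr.nil 791104 116 Tr.nil)) 791552 50 (Tr.node (Tr.node Tr.nil 794625 163 Tr.nil) 794632
  163 Tr.nil))) 794688 163 (Tr.node (Tr.node (Tr.node (Tr.node Tr.nil 795136 65 Tr.nil) 798720 88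
  (Tr.node Tr.nil 819202 880 Tr.nil)) 819209 519 (Tr.node (Tr.node Tr.nil 819216 496 Tr.nil)
  819265 683 Tr.nil)) 819272 519 (Tr.node (Tr.node (Tr.node Tr.nil 819328 631 Tr.nil) 819713 160
  Tr.nil) 819720 160 (Tr.node (Tr.node Tr.nil 819776 160 Tr.nil) 820224 64 Tr.nil)))) 823297 224
  (Tr.node (Tr.node (Tr.node (Tr.node (Tr.node Tr.nil 823304 224 Tr.nil) 823360 224 (Tr.node
  Tr.nil 823808 82 Tr.nil)) 827392 113 (Tr.node (Tr.node Tr.nil 851969 328 Tr.nil) 851976 328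
  Tr.nil)) 852032 328 (Tr.node (Tr.node (Tr.node Tr.nil 852480 113 Tr.nil) 856064 157 (Tr.node
  Tr.nil 884736 228 Tr.nil)) 1048578 1321 (Tr.node (Tr.node Tr.nil 1048585 781 Tr.nil) 1048592 746
  Tr.nil))) 1048641 1027 (Tr.node (Tr.node (Tr.node (Tr.node Tr.nil 1048648 781 Tr.nil) 1048704
  949 (Tr.node Tr.nil 1049089 236 Tr.nil)) 1049096 236 (Tr.node (Tr.node Tr.nil 1049152 236
  Tr.nil) 1049600 89 Tr.nil)) 1052673 332 (Tr.node (Tr.node (Tr.node Tr.nil 1052680 332 Tr.nil)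
  1052736 332 Tr.nil) 1053184 116 (Tr.node (Tr.node Tr.nil 1056768 163 Tr.nil) 1081345 485
  Tr.nil))))) 1081352 485 (Tr.node (Tr.node (Tr.node (Tr.node (Tr.node (Tr.node Tr.nil 1081408 485
  Tr.nil) 1081856 160 (Tr.node Tr.nil 1085440 224 Tr.nil)) 1114112 328 (Tr.node (Tr.node Tr.nil
  1310721 730 Tr.nil) 1310728 730 Tr.nil)) 1310784 730 (Tr.node (Tr.node (Tr.node Tr.nil 1311232
  236 Tr.nil) 1314816 332 (Tr.node Tr.nil 1343488 485 Tr.nil)) 1572864 730 (Tr.node (Tr.node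
  Tr.nil 2097157 16947 Tr.nil) 2097164 8553 Tr.nil))) 2097171 4433 (Tr.node (Tr.node (Tr.node
  (Tr.node Tr.nil 2097178 2425 Tr.nil) 2097185 1472 (Tr.node Tr.nil 2097192 1178 Tr.nil)) 2097220
  12857 (Tr.node (Tr.node Tr.nil 2097227 6557 Tr.nil) 2097234 3495 Tr.nil)) 2097241 2043 (Tr.node
  (Tr.node (Tr.node Tr.nil 2097248 1472 Tr.nil) 2097283 9853 Tr.nil) 2097290 5141 (Tr.node
  (Tr.node Tr.nil 2097297 2901 Tr.nil) 2097304 1942 Tr.nil)))) 2097346 7684 (Tr.node (Tr.node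
  (Tr.node (Tr.node (Tr.node Tr.nil 2097353 4201 Tr.nil) 2097360 2650 (Tr.node Tr.nil 2097409 6197
  Tr.nil)) 2097416 3714 (Tr.node (Tr.node Tr.nil 2097472 5332 Tr.nil) 2097668 2396 Tr.nil))
  2097675 1241 (Tr.node (Tr.node (Tr.node Tr.nil 2097682 683 Tr.nil) 2097689 418 (Tr.node Tr.nil
  2097696 341 Tr.nil)) 2097731 1848 (Tr.node (Tr.node Tr.nil 2097738 985 Tr.nil) 2097745 578
  Tr.nil))) 2097752 418 (Tr.node (Tr.node (Tr.node (Tr.node Tr.nil 2097794 1458 Tr.nil) 2097801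
  821 (Tr.node Tr.nil 2097808 548 Tr.nil)) 2097857 1196 (Tr.node (Tr.node Tr.nil 2097864 748
  Tr.nil) 2097920 1055 Tr.nil)) 2098179 393 (Tr.node (Tr.node (Tr.node Tr.nil 2098186 219 Tr.nil)
  2098193 138 Tr.nil) 2098200 116 (Tr.node (Tr.node Tr.nil 2098242 316 Tr.nil) 2098249 187
  Tr.nil)))))

def tY10 : Tr :=
  Tr.node (Tr.node (Tr.node (Tr.node (Tr.node (Tr.node (Tr.node Tr.nil 2098305 268 Tr.nil) 2098312
  179 (Tr.node Tr.nil 2098368 247 Tr.nil)) 2098690 82 (Tr.node (Tr.node Tr.nil 2098697 55 Tr.nil)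
  2098704 48 Tr.nil)) 2098753 72 (Tr.node (Tr.node (Tr.node Tr.nil 2098760 55 Tr.nil) 2098816 69
  (Tr.node Tr.nil 2099201 33 Tr.nil)) 2099208 30 (Tr.node (Tr.node Tr.nil 2099264 33 Tr.nil)
  2099712 22 Tr.nil))) 2101252 3510 (Tr.node (Tr.node (Tr.node (Tr.node Tr.nil 2101259 1804
  Tr.nil) 2101266 983 (Tr.node Tr.nil 2101273 596 Tr.nil)) 2101280 480 (Tr.node (Tr.node Tr.nil
  2101315 2697 Tr.nil) 2101322 1426 Tr.nil)) 2101329 829 (Tr.node (Tr.node (Tr.node Tr.nil 2101336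
  596 Tr.nil) 2101378 2119 Tr.nil) 2101385 1185 (Tr.node (Tr.node Tr.nil 2101392 787 Tr.nil)
  2101441 1735 Tr.nil)))) 2101448 1082 (Tr.node (Tr.node (Tr.node (Tr.node (Tr.node Tr.nil 2101504
  1532 Tr.nil) 2101763 545 (Tr.node Tr.nil 2101770 298 Tr.nil)) 2101777 184 (Tr.node (Tr.node
  Tr.nil 2101784 152 Tr.nil) 2101826 436 Tr.nil)) 2101833 254 (Tr.node (Tr.node (Tr.node Tr.nil
  2101840 184 Tr.nil) 2101889 367 (Tr.node Tr.nil 2101896 242 Tr.nil)) 2101952 338 (Tr.node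
  (Tr.node Tr.nil 2102274 104 Tr.nil) 2102281 68 Tr.nil))) 2102288 58 (Tr.node (Tr.node (Tr.node
  (Tr.node Tr.nil 2102337 91 Tr.nil) 2102344 68 (Tr.node Tr.nil 2102400 87 Tr.nil)) 2102785 37
  (Tr.node (Tr.node Tr.nil 2102792 33 Tr.nil) 2102848 37 Tr.nil)) 2103296 23 (Tr.node (Tr.node
  (Tr.node Tr.nil 2105347 799 Tr.nil) 2105354 431 Tr.nil) 2105361 262 (Tr.node (Tr.node Tr.nil
  2105368 214 Tr.nil) 2105410 636 Tr.nil))))) 2105417 366 (Tr.node (Tr.node (Tr.node (Tr.node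
  (Tr.node (Tr.node Tr.nil 2105424 262 Tr.nil) 2105473 533 (Tr.node Tr.nil 2105480 348 Tr.nil))
  2105536 488 (Tr.node (Tr.node Tr.nil 2105858 142 Tr.nil) 2105865 90 Tr.nil)) 2105872 76 (Tr.node
  (Tr.node (Tr.node Tr.nil 2105921 123 Tr.nil) 2105928 90 (Tr.node Tr.nil 2105984 117 Tr.nil))
  2106369 44 (Tr.node (Tr.node Tr.nil 2106376 38 Tr.nil) 2106432 44 Tr.nil))) 2106880 25 (Tr.node
  (Tr.node (Tr.node (Tr.node Tr.nil 2109442 203 Tr.nil) 2109449 125 (Tr.node Tr.nil 2109456 104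
  Tr.nil)) 2109505 173 (Tr.node (Tr.node Tr.nil 2109512 125 Tr.nil) 2109568 165 Tr.nil)) 2109953
  56 (Tr.node (Tr.node (Tr.node Tr.nil 2109960 47 Tr.nil) 2110016 56 Tr.nil) 2110464 28 (Tr.node
  (Tr.node Tr.nil 2113537 76 Tr.nil) 2113544 61 Tr.nil)))) 2113600 76 (Tr.node (Tr.node (Tr.node
  (Tr.node (Tr.node Tr.nil 2114048 32 Tr.nil) 2117632 39 (Tr.node Tr.nil 2129924 5157 Tr.nil))
  2129931 2635 (Tr.node (Tr.node Tr.nil 2129938 1427 Tr.nil) 2129945 858 Tr.nil)) 2129952 693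
  (Tr.node (Tr.node (Tr.node Tr.nil 2129987 3931 Tr.nil) 2129994 2065 Tr.nil) 2130001 1194
  (Tr.node (Tr.node Tr.nil 2130008 858 Tr.nil) 2130050 3064 Tr.nil))) 2130057 1703 (Tr.node
  (Tr.node (Tr.node (Tr.node Tr.nil 2130064 1131 Tr.nil) 2130113 2488 (Tr.node Tr.nil 2130120 1550
  Tr.nil)) 2130176 2189 (Tr.node (Tr.node Tr.nil 2130435 769 Tr.nil) 2130442 414 Tr.nil)) 2130449
  251 (Tr.node (Tr.node (Tr.node Tr.nil 2130456 207 Tr.nil) 2130498 606 Tr.nil) 2130505 348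
  (Tr.node (Tr.node Tr.nil 2130512 251 Tr.nil) 2130561 502 Tr.nil)))))

def tY11 : Tr :=
  Tr.node (Tr.node (Tr.node (Tr.node (Tr.node (Tr.node (Tr.node Tr.nil 2130624 456 Tr.nil) 2130946
  139 (Tr.node Tr.nil 2130953 87 Tr.nil)) 2130960 75 (Tr.node (Tr.node Tr.nil 2131009 119 Tr.nil)
  2131016 87 Tr.nil)) 2131072 113 (Tr.node (Tr.node (Tr.node Tr.nil 2131457 42 Tr.nil) 2131464 37
  (Tr.node Tr.nil 2131520 42 Tr.nil)) 2131968 25 (Tr.node (Tr.node Tr.nil 2134019 1122 Tr.nil)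
  2134026 597 Tr.nil))) 2134033 357 (Tr.node (Tr.node (Tr.node (Tr.node Tr.nil 2134040 291 Tr.nil)
  2134082 880 (Tr.node Tr.nil 2134089 500 Tr.nil)) 2134096 357 (Tr.node (Tr.node Tr.nil 2134145
  726 Tr.nil) 2134152 473 Tr.nil)) 2134208 660 (Tr.node (Tr.node (Tr.node Tr.nil 2134530 188
  Tr.nil) 2134537 115 Tr.nil) 2134544 97 (Tr.node (Tr.node Tr.nil 2134593 160 Tr.nil) 2134600 115
  Tr.nil)))) 2134656 152 (Tr.node (Tr.node (Tr.node (Tr.node (Tr.node Tr.nil 2135041 51 Tr.nil)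
  2135048 43 (Tr.node Tr.nil 2135104 51 Tr.nil)) 2135552 27 (Tr.node (Tr.node Tr.nil 2138114 271
  Tr.nil) 2138121 162 Tr.nil)) 2138128 134 (Tr.node (Tr.node (Tr.node Tr.nil 2138177 227 Tr.nil)
  2138184 162 (Tr.node Tr.nil 2138240 215 Tr.nil)) 2138625 65 (Tr.node (Tr.node Tr.nil 2138632 54
  Tr.nil) 2138688 65 Tr.nil))) 2139136 30 (Tr.node (Tr.node (Tr.node (Tr.node Tr.nil 2142209 88
  Tr.nil) 2142216 72 (Tr.node Tr.nil 2142272 88 Tr.nil)) 2142720 35 (Tr.node (Tr.node Tr.nil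
  2146304 44 Tr.nil) 2162691 1659 Tr.nil)) 2162698 877 (Tr.node (Tr.node (Tr.node Tr.nil 2162705
  521 Tr.nil) 2162712 424 Tr.nil) 2162754 1292 (Tr.node (Tr.node Tr.nil 2162761 729 Tr.nil)
  2162768 521 Tr.nil))))) 2162817 1059 (Tr.node (Tr.node (Tr.node (Tr.node (Tr.node (Tr.node
  Tr.nil 2162824 689 Tr.nil) 2162880 959 (Tr.node Tr.nil 2163202 269 Tr.nil)) 2163209 161 (Tr.node
  (Tr.node Tr.nil 2163216 134 Tr.nil) 2163265 225 Tr.nil)) 2163272 161 (Tr.node (Tr.node (Tr.node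
  Tr.nil 2163328 213 Tr.nil) 2163713 64 (Tr.node Tr.nil 2163720 54 Tr.nil)) 2163776 64 (Tr.node
  (Tr.node Tr.nil 2164224 31 Tr.nil) 2166786 387 Tr.nil))) 2166793 228 (Tr.node (Tr.node (Tr.node
  (Tr.node Tr.nil 2166800 187 Tr.nil) 2166849 322 (Tr.node Tr.nil 2166856 228 Tr.nil)) 2166912 304
  (Tr.node (Tr.node Tr.nil 2167297 84 Tr.nil) 2167304 69 Tr.nil)) 2167360 84 (Tr.node (Tr.node
  (Tr.node Tr.nil 2167808 35 Tr.nil) 2170881 116 Tr.nil) 2170888 94 (Tr.node (Tr.node Tr.nil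
  2170944 116 Tr.nil) 2171392 42 Tr.nil)))) 2174976 54 (Tr.node (Tr.node (Tr.node (Tr.node
  (Tr.node Tr.nil 2195458 572 Tr.nil) 2195465 334 (Tr.node Tr.nil 2195472 272 Tr.nil)) 2195521 473
  (Tr.node (Tr.node Tr.nil 2195528 334 Tr.nil) 2195584 446 Tr.nil)) 2195969 115 (Tr.node (Tr.node
  (Tr.node Tr.nil 2195976 94 Tr.nil) 2196032 115 Tr.nil) 2196480 43 (Tr.node (Tr.node Tr.nil
  2199553 162 Tr.nil) 2199560 129 Tr.nil))) 2199616 162 (Tr.node (Tr.node (Tr.node (Tr.node Tr.nil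
  2200064 53 Tr.nil) 2203648 70 (Tr.node Tr.nil 2228225 235 Tr.nil)) 2228232 186 (Tr.node (Tr.node
  Tr.nil 2228288 235 Tr.nil) 2228736 71 Tr.nil)) 2232320 96 (Tr.node (Tr.node (Tr.node Tr.nil
  2260992 137 Tr.nil) 2359300 7482 Tr.nil) 2359307 3887 (Tr.node (Tr.node Tr.nil 2359314 2131
  Tr.nil) 2359321 1290 Tr.nil)))))

def tY12 : Tr :=
  Tr.node (Tr.node (Tr.node (Tr.node (Tr.node (Tr.node (Tr.node Tr.nil 2359363 5719 Tr.nil)
  2359370 3055 (Tr.node Tr.nil 2359377 1786 Tr.nil)) 2359384 1290 (Tr.node (Tr.node Tr.nil 2359426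
  4473 Tr.nil) 2359433 2527 Tr.nil)) 2359440 1694 (Tr.node (Tr.node (Tr.node Tr.nil 2359489 3648
  Tr.nil) 2359496 2306 (Tr.node Tr.nil 2359552 3223 Tr.nil)) 2359811 1087 (Tr.node (Tr.node Tr.nil
  2359818 601 Tr.nil) 2359825 367 Tr.nil))) 2359832 304 (Tr.node (Tr.node (Tr.node (Tr.node Tr.nil
  2359874 860 Tr.nil) 2359881 505 (Tr.node Tr.nil 2359888 367 Tr.nil)) 2359937 714 (Tr.node
  (Tr.node Tr.nil 2359944 478 Tr.nil) 2360000 650 Tr.nil)) 2360322 192 (Tr.node (Tr.node (Tr.node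
  Tr.nil 2360329 122 Tr.nil) 2360336 104 Tr.nil) 2360385 163 (Tr.node (Tr.node Tr.nil 2360392 122
  Tr.nil) 2360448 156 Tr.nil)))) 2360833 50 (Tr.node (Tr.node (Tr.node (Tr.node (Tr.node Tr.nil
  2360840 45 Tr.nil) 2360896 50 (Tr.node Tr.nil 2361344 29 Tr.nil)) 2363395 1581 (Tr.node (Tr.node
  Tr.nil 2363402 866 Tr.nil) 2363409 524 Tr.nil)) 2363416 429 (Tr.node (Tr.node (Tr.node Tr.nil
  2363458 1245 Tr.nil) 2363465 726 (Tr.node Tr.nil 2363472 524 Tr.nil)) 2363521 1032 (Tr.node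
  (Tr.node Tr.nil 2363528 688 Tr.nil) 2363584 940 Tr.nil))) 2363906 261 (Tr.node (Tr.node (Tr.node
  (Tr.node Tr.nil 2363913 162 Tr.nil) 2363920 136 (Tr.node Tr.nil 2363969 221 Tr.nil)) 2363976 162
  (Tr.node (Tr.node Tr.nil 2364032 210 Tr.nil) 2364417 61 Tr.nil)) 2364424 54 (Tr.node (Tr.node
  (Tr.node Tr.nil 2364480 61 Tr.nil) 2364928 31 Tr.nil) 2367490 378 (Tr.node (Tr.node Tr.nil
  2367497 230 Tr.nil) 2367504 192 Tr.nil))))) 2367553 318 (Tr.node (Tr.node (Tr.node (Tr.node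
  (Tr.node (Tr.node Tr.nil 2367560 230 Tr.nil) 2367616 302 (Tr.node Tr.nil 2368001 80 Tr.nil))
  2368008 69 (Tr.node (Tr.node Tr.nil 2368064 80 Tr.nil) 2368512 35 Tr.nil)) 2371585 111 (Tr.node
  (Tr.node (Tr.node Tr.nil 2371592 94 Tr.nil) 2371648 111 (Tr.node Tr.nil 2372096 43 Tr.nil))
  2375680 55 (Tr.node (Tr.node Tr.nil 2392067 2317 Tr.nil) 2392074 1261 Tr.nil))) 2392081 758
  (Tr.node (Tr.node (Tr.node (Tr.node Tr.nil 2392088 621 Tr.nil) 2392130 1809 (Tr.node Tr.nil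
  2392137 1048 Tr.nil)) 2392144 758 (Tr.node (Tr.node Tr.nil 2392193 1488 Tr.nil) 2392200 991
  Tr.nil)) 2392256 1352 (Tr.node (Tr.node (Tr.node Tr.nil 2392578 365 Tr.nil) 2392585 222 Tr.nil)
  2392592 187 (Tr.node (Tr.node Tr.nil 2392641 305 Tr.nil) 2392648 222 Tr.nil)))) 2392704 288
  (Tr.node (Tr.node (Tr.node (Tr.node (Tr.node Tr.nil 2393089 79 Tr.nil) 2393096 69 (Tr.node
  Tr.nil 2393152 79 Tr.nil)) 2393600 34 (Tr.node (Tr.node Tr.nil 2396162 526 Tr.nil) 2396169 316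
  Tr.nil)) 2396176 263 (Tr.node (Tr.node (Tr.node Tr.nil 2396225 437 Tr.nil) 2396232 316 Tr.nil)
  2396288 413 (Tr.node (Tr.node Tr.nil 2396673 103 Tr.nil) 2396680 88 Tr.nil))) 2396736 103
  (Tr.node (Tr.node (Tr.node (Tr.node Tr.nil 2397184 40 Tr.nil) 2400257 144 (Tr.node Tr.nil
  2400264 122 Tr.nil)) 2400320 144 (Tr.node (Tr.node Tr.nil 2400768 50 Tr.nil) 2404352 65 Tr.nil))
  2424834 775 (Tr.node (Tr.node (Tr.node Tr.nil 2424841 462 Tr.nil) 2424848 383 Tr.nil) 2424897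
  640 (Tr.node (Tr.node Tr.nil 2424904 462 Tr.nil) 2424960 604 Tr.nil)))))

def tY13 : Tr :=
  Tr.node (Tr.node (Tr.node (Tr.node (Tr.node (Tr.node (Tr.node Tr.nil 2425352 122 Tr.nil) 2425408
  144 (Tr.node Tr.nil 2425856 50 Tr.nil)) 2428929 202 (Tr.node (Tr.node Tr.nil 2428936 170 Tr.nil)
  2428992 202 Tr.nil)) 2429440 63 (Tr.node (Tr.node (Tr.node Tr.nil 2433024 85 Tr.nil) 2457601 296
  (Tr.node Tr.nil 2457608 247 Tr.nil)) 2457664 296 (Tr.node (Tr.node Tr.nil 2458112 85 Tr.nil)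
  2461696 117 Tr.nil))) 2490368 167 (Tr.node (Tr.node (Tr.node (Tr.node Tr.nil 2621443 3434
  Tr.nil) 2621450 1888 (Tr.node Tr.nil 2621457 1140 Tr.nil)) 2621464 936 (Tr.node (Tr.node Tr.nil
  2621506 2688 Tr.nil) 2621513 1572 Tr.nil)) 2621520 1140 (Tr.node (Tr.node (Tr.node Tr.nil
  2621569 2216 Tr.nil) 2621576 1488 Tr.nil) 2621632 2018 (Tr.node (Tr.node Tr.nil 2621954 534
  Tr.nil) 2621961 326 Tr.nil)))) 2621968 275 (Tr.node (Tr.node (Tr.node (Tr.node (Tr.node Tr.nil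
  2622017 446 Tr.nil) 2622024 326 (Tr.node Tr.nil 2622080 421 Tr.nil)) 2622465 109 (Tr.node
  (Tr.node Tr.nil 2622472 96 Tr.nil) 2622528 109 Tr.nil)) 2622976 42 (Tr.node (Tr.node (Tr.node
  Tr.nil 2625538 770 Tr.nil) 2625545 465 (Tr.node Tr.nil 2625552 388 Tr.nil)) 2625601 640 (Tr.node
  (Tr.node Tr.nil 2625608 465 Tr.nil) 2625664 605 Tr.nil))) 2626049 145 (Tr.node (Tr.node (Tr.node
  (Tr.node Tr.nil 2626056 125 Tr.nil) 2626112 145 (Tr.node Tr.nil 2626560 50 Tr.nil)) 2629633 205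
  (Tr.node (Tr.node Tr.nil 2629640 175 Tr.nil) 2629696 205 Tr.nil)) 2630144 65 (Tr.node (Tr.node
  (Tr.node Tr.nil 2633728 88 Tr.nil) 2654210 1124 Tr.nil) 2654217 675 (Tr.node (Tr.node Tr.nil
  2654224 564 Tr.nil) 2654273 927 Tr.nil))))) 2654280 675 (Tr.node (Tr.node (Tr.node (Tr.node
  (Tr.node (Tr.node Tr.nil 2654336 875 Tr.nil) 2654721 200 (Tr.node Tr.nil 2654728 172 Tr.nil))
  2654784 200 (Tr.node (Tr.node Tr.nil 2655232 64 Tr.nil) 2658305 283 Tr.nil)) 2658312 241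
  (Tr.node (Tr.node (Tr.node Tr.nil 2658368 283 Tr.nil) 2658816 82 (Tr.node Tr.nil 2662400 113
  Tr.nil)) 2686977 414 (Tr.node (Tr.node Tr.nil 2686984 352 Tr.nil) 2687040 414 Tr.nil))) 2687488
  113 (Tr.node (Tr.node (Tr.node (Tr.node Tr.nil 2691072 157 Tr.nil) 2719744 228 (Tr.node Tr.nil
  2883586 1687 Tr.nil)) 2883593 1016 (Tr.node (Tr.node Tr.nil 2883600 849 Tr.nil) 2883649 1393
  Tr.nil)) 2883656 1016 (Tr.node (Tr.node (Tr.node Tr.nil 2883712 1315 Tr.nil) 2884097 293 Tr.nil)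
  2884104 253 (Tr.node (Tr.node Tr.nil 2884160 293 Tr.nil) 2884608 89 Tr.nil)))) 2887681 417
  (Tr.node (Tr.node (Tr.node (Tr.node (Tr.node Tr.nil 2887688 356 Tr.nil) 2887744 417 (Tr.node
  Tr.nil 2888192 116 Tr.nil)) 2891776 163 (Tr.node (Tr.node Tr.nil 2916353 607 Tr.nil) 2916360 519
  Tr.nil)) 2916416 607 (Tr.node (Tr.node (Tr.node Tr.nil 2916864 160 Tr.nil) 2920448 224 (Tr.node
  Tr.nil 2949120 328 Tr.nil)) 3145729 913 (Tr.node (Tr.node Tr.nil 3145736 781 Tr.nil) 3145792 913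
  Tr.nil))) 3146240 236 (Tr.node (Tr.node (Tr.node (Tr.node Tr.nil 3149824 332 Tr.nil) 3178496 485
  (Tr.node Tr.nil 3407872 730 Tr.nil)) 4194308 11245 (Tr.node (Tr.node Tr.nil 4194315 5766 Tr.nil)
  4194322 3121 Tr.nil)) 4194329 1890 (Tr.node (Tr.node (Tr.node Tr.nil 4194336 1472 Tr.nil)
  4194371 8638 Tr.nil) 4194378 4562 (Tr.node (Tr.node Tr.nil 4194385 2652 Tr.nil) 4194392 1890
  Tr.nil)))))

def tY14 : Tr :=
  Tr.node (Tr.node (Tr.node (Tr.node (Tr.node (Tr.node (Tr.node Tr.nil 4194441 3799 Tr.nil)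
  4194448 2527 (Tr.node Tr.nil 4194497 5546 Tr.nil)) 4194504 3476 (Tr.node (Tr.node Tr.nil 4194560
  4906 Tr.nil) 4194819 1610 Tr.nil)) 4194826 872 (Tr.node (Tr.node (Tr.node Tr.nil 4194833 531
  Tr.nil) 4194840 418 (Tr.node Tr.nil 4194882 1281 Tr.nil)) 4194889 744 (Tr.node (Tr.node Tr.nil
  4194896 531 Tr.nil) 4194945 1070 Tr.nil))) 4194952 708 (Tr.node (Tr.node (Tr.node (Tr.node
  Tr.nil 4195008 977 Tr.nil) 4195330 276 (Tr.node Tr.nil 4195337 170 Tr.nil)) 4195344 138 (Tr.node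
  (Tr.node Tr.nil 4195393 238 Tr.nil) 4195400 170 Tr.nil)) 4195456 228 (Tr.node (Tr.node (Tr.node
  Tr.nil 4195841 65 Tr.nil) 4195848 55 Tr.nil) 4195904 65 (Tr.node (Tr.node Tr.nil 4196352 33
  Tr.nil) 4198403 2361 Tr.nil)))) 4198410 1269 (Tr.node (Tr.node (Tr.node (Tr.node (Tr.node Tr.nil
  4198417 765 Tr.nil) 4198424 596 (Tr.node Tr.nil 4198466 1872 Tr.nil)) 4198473 1080 (Tr.node
  (Tr.node Tr.nil 4198480 765 Tr.nil) 4198529 1561 Tr.nil)) 4198536 1028 (Tr.node (Tr.node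
  (Tr.node Tr.nil 4198592 1427 Tr.nil) 4198914 384 (Tr.node Tr.nil 4198921 232 Tr.nil)) 4198928
  184 (Tr.node (Tr.node Tr.nil 4198977 329 Tr.nil) 4198984 232 Tr.nil))) 4199040 314 (Tr.node
  (Tr.node (Tr.node (Tr.node Tr.nil 4199425 82 Tr.nil) 4199432 68 (Tr.node Tr.nil 4199488 82
  Tr.nil)) 4199936 37 (Tr.node (Tr.node Tr.nil 4202498 561 Tr.nil) 4202505 336 Tr.nil)) 4202512
  262 (Tr.node (Tr.node (Tr.node Tr.nil 4202561 480 Tr.nil) 4202568 336 Tr.nil) 4202624 458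
  (Tr.node (Tr.node Tr.nil 4203009 111 Tr.nil) 4203016 90 Tr.nil))))) 4203072 111 (Tr.node
  (Tr.node (Tr.node (Tr.node (Tr.node (Tr.node Tr.nil 4203520 44 Tr.nil) 4206593 158 (Tr.node
  Tr.nil 4206600 125 Tr.nil)) 4206656 158 (Tr.node (Tr.node Tr.nil 4207104 56 Tr.nil) 4210688 76
  Tr.nil)) 4227075 3445 (Tr.node (Tr.node (Tr.node Tr.nil 4227082 1838 Tr.nil) 4227089 1100
  (Tr.node Tr.nil 4227096 858 Tr.nil)) 4227138 2710 (Tr.node (Tr.node Tr.nil 4227145 1553 Tr.nil)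
  4227152 1100 Tr.nil))) 4227201 2243 (Tr.node (Tr.node (Tr.node (Tr.node Tr.nil 4227208 1476
  Tr.nil) 4227264 2045 (Tr.node Tr.nil 4227586 533 Tr.nil)) 4227593 318 (Tr.node (Tr.node Tr.nil
  4227600 251 Tr.nil) 4227649 452 Tr.nil)) 4227656 318 (Tr.node (Tr.node (Tr.node Tr.nil 4227712
  429 Tr.nil) 4228097 107 Tr.nil) 4228104 87 (Tr.node (Tr.node Tr.nil 4228160 107 Tr.nil) 4228608
  42 Tr.nil)))) 4231170 777 (Tr.node (Tr.node (Tr.node (Tr.node (Tr.node Tr.nil 4231177 458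
  Tr.nil) 4231184 357 (Tr.node Tr.nil 4231233 656 Tr.nil)) 4231240 458 (Tr.node (Tr.node Tr.nil
  4231296 623 Tr.nil) 4231681 145 Tr.nil)) 4231688 115 (Tr.node (Tr.node (Tr.node Tr.nil 4231744
  145 Tr.nil) 4232192 51 Tr.nil) 4235265 207 (Tr.node (Tr.node Tr.nil 4235272 162 Tr.nil) 4235328
  207 Tr.nil))) 4235776 65 (Tr.node (Tr.node (Tr.node (Tr.node Tr.nil 4239360 88 Tr.nil) 4259842
  1142 (Tr.node Tr.nil 4259849 669 Tr.nil)) 4259856 521 (Tr.node (Tr.node Tr.nil 4259905 959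
  Tr.nil) 4259912 669 Tr.nil)) 4259968 909 (Tr.node (Tr.node (Tr.node Tr.nil 4260353 204 Tr.nil)
  4260360 161 Tr.nil) 4260416 204 (Tr.node (Tr.node Tr.nil 4260864 64 Tr.nil) 4263937 293
  Tr.nil)))))

def tY15 : Tr :=
  Tr.node (Tr.node (Tr.node (Tr.node (Tr.node (Tr.node (Tr.node Tr.nil 4264000 293 Tr.nil) 4264448
  84 (Tr.node Tr.nil 4268032 116 Tr.nil)) 4292609 431 (Tr.node (Tr.node Tr.nil 4292616 334 Tr.nil)
  4292672 431 Tr.nil)) 4293120 115 (Tr.node (Tr.node (Tr.node Tr.nil 4296704 162 Tr.nil) 4325376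
  235 (Tr.node Tr.nil 4456451 5032 Tr.nil)) 4456458 2728 (Tr.node (Tr.node Tr.nil 4456465 1650
  Tr.nil) 4456472 1290 Tr.nil))) 4456514 3973 (Tr.node (Tr.node (Tr.node (Tr.node Tr.nil 4456521
  2312 Tr.nil) 4456528 1650 (Tr.node Tr.nil 4456577 3303 Tr.nil)) 4456584 2201 (Tr.node (Tr.node
  Tr.nil 4456640 3022 Tr.nil) 4456962 761 Tr.nil)) 4456969 463 (Tr.node (Tr.node (Tr.node Tr.nil
  4456976 367 Tr.nil) 4457025 647 Tr.nil) 4457032 463 (Tr.node (Tr.node Tr.nil 4457088 615 Tr.nil)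
  4457473 149 Tr.nil)))) 4457480 122 (Tr.node (Tr.node (Tr.node (Tr.node (Tr.node Tr.nil 4457536
  149 Tr.nil) 4457984 50 (Tr.node Tr.nil 4460546 1108 Tr.nil)) 4460553 668 (Tr.node (Tr.node
  Tr.nil 4460560 524 Tr.nil) 4460609 940 Tr.nil)) 4460616 668 (Tr.node (Tr.node (Tr.node Tr.nil
  4460672 894 Tr.nil) 4461057 202 (Tr.node Tr.nil 4461064 162 Tr.nil)) 4461120 202 (Tr.node
  (Tr.node Tr.nil 4461568 61 Tr.nil) 4464641 291 Tr.nil))) 4464648 230 (Tr.node (Tr.node (Tr.node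
  (Tr.node Tr.nil 4464704 291 Tr.nil) 4465152 80 (Tr.node Tr.nil 4468736 111 Tr.nil)) 4489218 1610
  (Tr.node (Tr.node Tr.nil 4489225 964 Tr.nil) 4489232 758 Tr.nil)) 4489281 1356 (Tr.node (Tr.node
  (Tr.node Tr.nil 4489288 964 Tr.nil) 4489344 1289 Tr.nil) 4489729 278 (Tr.node (Tr.node Tr.nil
  4489736 222 Tr.nil) 4489792 278 Tr.nil))))) 4490240 79 (Tr.node (Tr.node (Tr.node (Tr.node
  (Tr.node (Tr.node Tr.nil 4493313 400 Tr.nil) 4493320 316 (Tr.node Tr.nil 4493376 400 Tr.nil))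
  4493824 103 (Tr.node (Tr.node Tr.nil 4497408 144 Tr.nil) 4521985 585 Tr.nil)) 4521992 462
  (Tr.node (Tr.node (Tr.node Tr.nil 4522048 585 Tr.nil) 4522496 144 (Tr.node Tr.nil 4526080 202
  Tr.nil)) 4554752 296 (Tr.node (Tr.node Tr.nil 4718594 2398 Tr.nil) 4718601 1448 Tr.nil)))
  4718608 1140 (Tr.node (Tr.node (Tr.node (Tr.node Tr.nil 4718657 2025 Tr.nil) 4718664 1448
  (Tr.node Tr.nil 4718720 1927 Tr.nil)) 4719105 407 (Tr.node (Tr.node Tr.nil 4719112 326 Tr.nil)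
  4719168 407 Tr.nil)) 4719616 109 (Tr.node (Tr.node (Tr.node Tr.nil 4722689 587 Tr.nil) 4722696
  465 Tr.nil) 4722752 587 (Tr.node (Tr.node Tr.nil 4723200 145 Tr.nil) 4726784 205 Tr.nil))))
  4751361 850 (Tr.node (Tr.node (Tr.node (Tr.node (Tr.node Tr.nil 4751368 675 Tr.nil) 4751424 850
  (Tr.node Tr.nil 4751872 200 Tr.nil)) 4755456 283 (Tr.node (Tr.node Tr.nil 4784128 414 Tr.nil)
  4980737 1279 Tr.nil)) 4980744 1016 (Tr.node (Tr.node (Tr.node Tr.nil 4980800 1279 Tr.nil)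
  4981248 293 Tr.nil) 4984832 417 (Tr.node (Tr.node Tr.nil 5013504 607 Tr.nil) 5242880 913
  Tr.nil))) 6291459 7613 (Tr.node (Tr.node (Tr.node (Tr.node Tr.nil 6291466 4085 Tr.nil) 6291473
  2465 (Tr.node Tr.nil 6291480 1890 Tr.nil)) 6291522 6028 (Tr.node (Tr.node Tr.nil 6291529 3483
  Tr.nil) 6291536 2465 Tr.nil)) 6291585 5024 (Tr.node (Tr.node (Tr.node Tr.nil 6291592 3322
  Tr.nil) 6291648 4601 Tr.nil) 6291970 1139 (Tr.node (Tr.node Tr.nil 6291977 688 Tr.nil) 6291984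
  531 Tr.nil)))))

def tY16 : Tr :=
  Tr.node (Tr.node (Tr.node (Tr.node (Tr.node (Tr.node (Tr.node Tr.nil 6292040 688 Tr.nil) 6292096
  928 (Tr.node Tr.nil 6292481 218 Tr.nil)) 6292488 170 (Tr.node (Tr.node Tr.nil 6292544 218
  Tr.nil) 6292992 65 Tr.nil)) 6295554 1671 (Tr.node (Tr.node (Tr.node Tr.nil 6295561 1001 Tr.nil)
  6295568 765 (Tr.node Tr.nil 6295617 1427 Tr.nil)) 6295624 1001 (Tr.node (Tr.node Tr.nil 6295680
  1360 Tr.nil) 6296065 303 Tr.nil))) 6296072 232 (Tr.node (Tr.node (Tr.node (Tr.node Tr.nil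
  6296128 303 Tr.nil) 6296576 82 (Tr.node Tr.nil 6299649 443 Tr.nil)) 6299656 336 (Tr.node
  (Tr.node Tr.nil 6299712 443 Tr.nil) 6300160 111 Tr.nil)) 6303744 158 (Tr.node (Tr.node (Tr.node
  Tr.nil 6324226 2419 Tr.nil) 6324233 1439 Tr.nil) 6324240 1100 (Tr.node (Tr.node Tr.nil 6324289
  2052 Tr.nil) 6324296 1439 Tr.nil)))) 6324352 1953 (Tr.node (Tr.node (Tr.node (Tr.node (Tr.node
  Tr.nil 6324737 415 Tr.nil) 6324744 318 (Tr.node Tr.nil 6324800 415 Tr.nil)) 6325248 107 (Tr.node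
  (Tr.node Tr.nil 6328321 605 Tr.nil) 6328328 458 Tr.nil)) 6328384 605 (Tr.node (Tr.node (Tr.node
  Tr.nil 6328832 145 Tr.nil) 6332416 207 (Tr.node Tr.nil 6356993 883 Tr.nil)) 6357000 669 (Tr.node
  (Tr.node Tr.nil 6357056 883 Tr.nil) 6357504 204 Tr.nil))) 6361088 293 (Tr.node (Tr.node (Tr.node
  (Tr.node Tr.nil 6389760 431 Tr.nil) 6553602 3562 (Tr.node Tr.nil 6553609 2148 Tr.nil)) 6553616
  1650 (Tr.node (Tr.node Tr.nil 6553665 3032 Tr.nil) 6553672 2148 Tr.nil)) 6553728 2892 (Tr.node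
  (Tr.node (Tr.node Tr.nil 6554113 598 Tr.nil) 6554120 463 Tr.nil) 6554176 598 (Tr.node (Tr.node
  Tr.nil 6554624 149 Tr.nil) 6557697 871 Tr.nil))))) 6557704 668 (Tr.node (Tr.node (Tr.node
  (Tr.node (Tr.node (Tr.node Tr.nil 6557760 871 Tr.nil) 6558208 202 (Tr.node Tr.nil 6561792 291
  Tr.nil)) 6586369 1257 (Tr.node (Tr.node Tr.nil 6586376 964 Tr.nil) 6586432 1257 Tr.nil)) 6586880
  278 (Tr.node (Tr.node (Tr.node Tr.nil 6590464 400 Tr.nil) 6619136 585 (Tr.node Tr.nil 6815745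
  1881 Tr.nil)) 6815752 1448 (Tr.node (Tr.node Tr.nil 6815808 1881 Tr.nil) 6816256 407 Tr.nil)))
  6819840 587 (Tr.node (Tr.node (Tr.node (Tr.node Tr.nil 6848512 850 Tr.nil) 7077888 1279 (Tr.node
  Tr.nil 8388610 5406 Tr.nil)) 8388617 3245 (Tr.node (Tr.node Tr.nil 8388624 2465 Tr.nil) 8388673
  4614 Tr.nil)) 8388680 3245 (Tr.node (Tr.node (Tr.node Tr.nil 8388736 4402 Tr.nil) 8389121 903
  Tr.nil) 8389128 688 (Tr.node (Tr.node Tr.nil 8389184 903 Tr.nil) 8389632 218 Tr.nil)))) 8392705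
  1326 (Tr.node (Tr.node (Tr.node (Tr.node (Tr.node Tr.nil 8392712 1001 Tr.nil) 8392768 1326
  (Tr.node Tr.nil 8393216 303 Tr.nil)) 8396800 443 (Tr.node (Tr.node Tr.nil 8421377 1906 Tr.nil)
  8421384 1439 Tr.nil)) 8421440 1906 (Tr.node (Tr.node (Tr.node Tr.nil 8421888 415 Tr.nil) 8425472
  605 Tr.nil) 8454144 883 (Tr.node (Tr.node Tr.nil 8650753 2826 Tr.nil) 8650760 2148 Tr.nil)))
  8650816 2826 (Tr.node (Tr.node (Tr.node (Tr.node Tr.nil 8651264 598 Tr.nil) 8654848 871 (Tr.node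
  Tr.nil 8683520 1257 Tr.nil)) 8912896 1881 (Tr.node (Tr.node Tr.nil 10485761 4303 Tr.nil)
  10485768 3245 Tr.nil)) 10485824 4303 (Tr.node (Tr.node (Tr.node Tr.nil 10486272 903 Tr.nil)
  10489856 1326 Tr.nil) 10518528 1906 (Tr.node (Tr.node Tr.nil 10747904 2826 Tr.nil) 12582912 4303
  Tr.nil)))))

def tY : Tr :=
  Tr.node (Tr.node (Tr.node (Tr.node tY1 4626 245 tY2) 32801 693 (Tr.node tY3 45065 72 tY4))
  102465 189 (Tr.node (Tr.node tY5 266818 300 tY6) 303113 122 (Tr.node tY7 528401 388 tY8)))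
  787520 89 (Tr.node (Tr.node (Tr.node tY9 2098256 138 tY10) 2130568 330 (Tr.node tY11 2359328
  1044 tY12)) 2425345 144 (Tr.node (Tr.node tY13 4194434 6779 tY14) 4263944 228 (Tr.node tY15
  6292033 974 tY16)))

theorem tY_check : (S3.all fun p => S3.all fun q => [0, 1].all fun π => chkY tY p q π) = true := by
  decide +kernel

theorem tY_start : look tY (key [0, 0, 0] + key [0, 0, 0]) ≤ 100000 := by
  decide +kernel

end Pool.Agent.P.MP_9a799e_nt.Z
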