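import Pool.Agent.P.MP_9a799e_nt.ZBasic
import Pool.Agent.P.MP_9a799e_nt.ZTabX
import Pool.Agent.P.MP_9a799e_nt.ZTabY

/-! Growth of the six-fold additive energies of the word values. -/

set_option autoImplicit false

namespace Pool.Agent.P.MP_9a799e_nt.Z

theorem E_zero_len (p q : List ℕ) (φ : ℤ → ℕ) : E 0 p q φ = φ 0 := by
  unfold E
  simp only [W_zero_len, sub_zero]

theorem S3_valid {q : List ℕ} (h : q ∈ S3) : q.length = 3 ∧ ∀ s ∈ q, s < 8 := by
  have : (S3.all fun q => Nat.beq q.length 3 && q.all fun s => Nat.blt s 8) = true := by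
    decide +kernel
  simp only [List.all_eq_true, Bool.and_eq_true, Nat.beq_eq, Nat.blt_eq] at this
  exact this q h

theorem EX_aux (t : Tr)
    (ht : (S3.all fun p => S3.all fun q => [0, 1, 2].all fun K => chkX t p q K) = true)
    (l : ℕ) : ∀ (p q : List ℕ) (K : ℕ), p.length = 3 → (∀ s ∈ p, s < 8) → q.length = 3 →
      (∀ s ∈ q, s < 8) → K ≤ 2 → look t (key p * 2 ^ 26 + key q * 4 + K) ≠ 0 →
      25 ^ l * E l p q (fun z => if z = ((K : ℤ) - 1) * 3 ^ l then 1 else 0) ≤
        122 ^ l * look t (key p * 2 ^ 26 + key q * 4 + K) := by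
  induction l with
  | zero =>
    intro p q K _ _ _ _ _ h
    rw [E_zero_len]
    split_ifs <;> omega
  | succ l ih =>
    intro p0 q0 K hp0 hp0' hq0 hq0' hK h
    obtain ⟨p, hp, hpp⟩ := exists_S3 p0 hp0 hp0'
    obtain ⟨q, hq, hqq⟩ := exists_S3 q0 hq0 hq0'
    rw [key_perm hpp, key_perm hqq] at h ⊢
    rw [E_perm _ hpp hqq]
    simp only [List.all_eq_true] at ht
    have hc := ht p hp q hq K (by interval_cases K <;> simp)
    obtain ⟨hp3, hp8⟩ := S3_valid hp
    obtain ⟨hq3, hq8⟩ := S3_valid hq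
    simp only [chkX, Bool.or_eq_true, Bool.and_eq_true, Nat.beq_eq, Nat.blt_eq, Nat.ble_eq] at hc
    rcases hc with hc | ⟨h1, h2⟩
    · exact absurd hc h
    rw [E_succ]
    have key1 : 25 ^ l * (H p fun p' i => H q fun q' j => E l p' q' fun z =>
        if ((i : ℤ) - j) * 3 ^ l + 2 * z = ((K : ℤ) - 1) * 3 ^ (l + 1) then 1 else 0) ≤
        122 ^ l * H p fun p' i => H q fun q' j => vX t p' q' (3 * K + j + 3 - i) := by
      refine H_le (2 ^ 40) _ _ p hp8 _ _ (fun p' i a1 a2 a3 a4 => ?_) (by omega)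
      refine H_le (2 ^ 40) _ _ q hq8 _ _ (fun q' j b1 b2 b3 b4 => ?_) a4
      rw [hp3] at a1 a3
      rw [hq3] at b1 b3
      have h3 : (0 : ℤ) < 3 ^ l := by positivity
      obtain ⟨z0, hz0⟩ : ∃ z0 : ℕ, z0 = 3 * K + j + 3 - i := ⟨_, rfl⟩
      rw [← hz0] at b4 ⊢
      have hz1 : (z0 : ℤ) = 3 * K + j + 3 - i := by omega
      by_cases hz : z0 % 2 = 0 ∧ 4 ≤ z0 ∧ z0 ≤ 8
      · have hv : vX t p' q' z0 = look t (key p' * 2 ^ 26 + key q' * 4 + (z0 / 2 - 2)) ∧
            look t (key p' * 2 ^ 26 + key q' * 4 + (z0 / 2 - 2)) ≠ 0 := by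
          have e1 : (Nat.beq (z0 % 2) 0 && Nat.ble 4 z0 && Nat.ble z0 8) = true := by
            simp only [Bool.and_eq_true, Nat.beq_eq, Nat.ble_eq]; omega
          unfold vX at b4 ⊢
          rw [e1] at b4 ⊢
          simp only [cond_true] at b4 ⊢
          cases e2 : Nat.beq (look t (key p' * 2 ^ 26 + key q' * 4 + (z0 / 2 - 2))) 0
          · simp only [cond_false, true_and]
            intro e3
            rw [e3] at e2
            simp at e2
          · rw [e2] at b4
            simp at b4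
        rw [hv.1]
        refine le_trans (Nat.mul_le_mul_left _ (E_mono l p' q' a1 b1 _ _ fun z _ => ?_))
          (ih p' q' (z0 / 2 - 2) a1 a2 b1 b2 (by omega) hv.2)
        split_ifs with c1 c2
        · exact le_rfl
        · exfalso
          apply c2
          have e4 : ((z0 / 2 - 2 : ℕ) : ℤ) * 2 = 3 * K + j - 1 - i := by omega
          rw [pow_succ] at c1
          have : 2 * z = 2 * ((((z0 / 2 - 2 : ℕ) : ℤ) - 1) * 3 ^ l) := by
            have e5 : (i : ℤ) = 3 * K + j - 1 - ((z0 / 2 - 2 : ℕ) : ℤ) * 2 := by omega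
            rw [e5] at c1
            linarith
          omega
        · exact Nat.zero_le _
        · exact le_rfl
      · have : E l p' q' (fun z => if ((i : ℤ) - j) * 3 ^ l + 2 * z =
            ((K : ℤ) - 1) * 3 ^ (l + 1) then 1 else 0) ≤ E l p' q' fun _ => 0 := by
          refine E_mono l p' q' a1 b1 _ _ fun z hz' => ?_
          rw [if_neg]
          intro c1
          apply hz
          rw [pow_succ] at c1
          have e6 : 2 * z = ((z0 : ℤ) - 6) * 3 ^ l := by rw [hz1]; linarith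
          have hodd : Odd ((3 : ℤ) ^ l) := Odd.pow (by decide)
          have e7 : Even ((z0 : ℤ) - 6) := by
            have : Even (((z0 : ℤ) - 6) * 3 ^ l) := e6 ▸ even_two_mul z
            rcases Int.even_mul.1 this with h | h
            · exact h
            · exact absurd h (Int.not_even_iff_odd.2 hodd)
          obtain ⟨r, hr⟩ := e7
          have e8 : z = r * 3 ^ l := by rw [hr] at e6; linarith
          have e9 : -2 < r ∧ r < 2 := by
            rw [e8, abs_mul, abs_of_pos h3] at hz'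
            have : 5 * |r| ≤ 9 := by nlinarith
            rcases abs_cases r with h | h <;> omega
          omega
        rw [E_zero] at this
        rw [Nat.le_zero.1 this]
        simp
    calc _ = 25 * (25 ^ l * _) := by rw [pow_succ]; ring
      _ ≤ 25 * (122 ^ l * H p fun p' i => H q fun q' j => vX t p' q' (3 * K + j + 3 - i)) :=
          Nat.mul_le_mul_left _ key1
      _ = 122 ^ l * (25 * H p fun p' i => H q fun q' j => vX t p' q' (3 * K + j + 3 - i)) := by
          ring
      _ ≤ 122 ^ l * (122 * look t (key p * 2 ^ 26 + key q * 4 + K)) := Nat.mul_le_mul_left _ h2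
      _ = _ := by rw [pow_succ]; ring

theorem EY_aux (t : Tr)
    (ht : (S3.all fun p => S3.all fun q => [0, 1].all fun π => chkY t p q π) = true)
    (l : ℕ) : ∀ (p q : List ℕ) (τ : ℤ), p.length = 3 → (∀ s ∈ p, s < 8) → q.length = 3 →
      (∀ s ∈ q, s < 8) →
      100 ^ l * E l p q (fun z => if (2 : ℤ) ^ l ∣ z - τ then 1 else 0) ≤
        603 ^ l * look t (key p + key q) := by
  simp only [List.all_eq_true] at ht
  induction l with
  | zero =>
    intro p0 q0 τ hp0 hp0' hq0 hq0'
    obtain ⟨p, hp, hpp⟩ := exists_S3 p0 hp0 hp0'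
    obtain ⟨q, hq, hqq⟩ := exists_S3 q0 hq0 hq0'
    rw [key_perm hpp, key_perm hqq, E_zero_len]
    have hc := ht p hp q hq 0 (by simp)
    simp only [chkY, Bool.and_eq_true, Nat.ble_eq] at hc
    split_ifs <;> omega
  | succ l ih =>
    intro p0 q0 τ hp0 hp0' hq0 hq0'
    obtain ⟨p, hp, hpp⟩ := exists_S3 p0 hp0 hp0'
    obtain ⟨q, hq, hqq⟩ := exists_S3 q0 hq0 hq0'
    rw [key_perm hpp, key_perm hqq, E_perm _ hpp hqq]
    obtain ⟨π, hπ, hτ⟩ : ∃ π : ℕ, π ∈ [0, 1] ∧ (π : ℤ) % 2 = τ % 2 := by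
      rcases Int.emod_two_eq_zero_or_one τ with h | h
      · exact ⟨0, by simp, by omega⟩
      · exact ⟨1, by simp, by omega⟩
    have hc := ht p hp q hq π hπ
    obtain ⟨hp3, hp8⟩ := S3_valid hp
    obtain ⟨hq3, hq8⟩ := S3_valid hq
    simp only [chkY, Bool.and_eq_true, Nat.ble_eq] at hc
    obtain ⟨-, h2⟩ := hc
    rw [E_succ]
    have key1 : 100 ^ l * (H p fun p' i => H q fun q' j => E l p' q' fun z =>
        if (2 : ℤ) ^ (l + 1) ∣ ((i : ℤ) - j) * 3 ^ l + 2 * z - τ then 1 else 0) ≤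
        603 ^ l * H p fun p' i => H q fun q' j =>
          bif Nat.beq ((i + j + π) % 2) 0 then look t (key p' + key q') else 0 := by
      refine H_le _ _ _ p hp8 _ _ (fun p' i a1 a2 _ _ => ?_) (Nat.lt_succ_self _)
      refine H_le _ _ _ q hq8 _ _ (fun q' j b1 b2 _ _ => ?_) (Nat.lt_succ_self _)
      rw [hp3] at a1
      rw [hq3] at b1
      obtain ⟨k, hk⟩ : Odd ((3 : ℤ) ^ l) := Odd.pow (by decide)
      cases e1 : Nat.beq ((i + j + π) % 2) 0
      · have e2 : (i + j + π) % 2 ≠ 0 := by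
          intro e
          rw [e] at e1
          simp at e1
        have : E l p' q' (fun z => if (2 : ℤ) ^ (l + 1) ∣ ((i : ℤ) - j) * 3 ^ l + 2 * z - τ
            then 1 else 0) ≤ E l p' q' fun _ => 0 := by
          refine E_mono l p' q' a1 b1 _ _ fun z _ => ?_
          rw [if_neg]
          intro c1
          have c2 : (2 : ℤ) ∣ ((i : ℤ) - j) * 3 ^ l + 2 * z - τ :=
            (dvd_pow_self 2 (Nat.succ_ne_zero l)).trans c1
          rw [hk, mul_add, mul_one, mul_left_comm] at c2
          omega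
        rw [E_zero] at this
        rw [Nat.le_zero.1 this]
        simp
      · simp only [cond_true]
        rw [Nat.beq_eq] at e1
        obtain ⟨τ', hτ'⟩ : ∃ τ' : ℤ, τ - ((i : ℤ) - j) * 3 ^ l = 2 * τ' := by
          rw [hk, mul_add, mul_one, mul_left_comm]
          exact ⟨(τ - (2 * (((i : ℤ) - j) * k) + (i - j))) / 2, by omega⟩
        refine le_trans (Nat.mul_le_mul_left _ (E_mono l p' q' a1 b1 _ _ fun z _ => ?_))
          (ih p' q' τ' a1 a2 b1 b2)
        split_ifs with c1 c2
        · exact le_rfl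
        · exfalso
          apply c2
          have : ((i : ℤ) - j) * 3 ^ l + 2 * z - τ = (z - τ') * 2 := by linarith
          rw [this, pow_succ] at c1
          exact (mul_dvd_mul_iff_right two_ne_zero).1 c1
        · exact Nat.zero_le _
        · exact le_rfl
    calc _ = 100 * (100 ^ l * _) := by rw [pow_succ]; ring
      _ ≤ 100 * (603 ^ l * _) := Nat.mul_le_mul_left _ key1
      _ = 603 ^ l * (100 * _) := by ring
      _ ≤ 603 ^ l * (603 * look t (key p + key q)) := Nat.mul_le_mul_left _ h2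
      _ = _ := by rw [pow_succ]; ring

theorem EX (l : ℕ) (K : ℕ) (hK : K ≤ 2) :
    25 ^ l * E l [0, 0, 0] [0, 0, 0] (fun z => if z = ((K : ℤ) - 1) * 3 ^ l then 1 else 0) ≤
      122 ^ l * 100000 := by
  have h := tX_start
  simp only [List.all_eq_true, Bool.and_eq_true, Nat.ble_eq] at h
  obtain ⟨h1, h2⟩ := h K (by interval_cases K <;> simp)
  exact (EX_aux tX tX_check l _ _ K rfl (by simp) rfl (by simp) hK (by omega)).trans
    (Nat.mul_le_mul_left _ h2)

theorem EY (l : ℕ) (τ : ℤ) :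
    100 ^ l * E l [0, 0, 0] [0, 0, 0] (fun z => if (2 : ℤ) ^ l ∣ z - τ then 1 else 0) ≤
      603 ^ l * 100000 :=
  (EY_aux tY tY_check l _ _ τ rfl (by simp) rfl (by simp)).trans
    (Nat.mul_le_mul_left _ tY_start)

end Pool.Agent.P.MP_9a799e_nt.Z
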