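import Pool.Agent.P.MP_9a799e_nt.ZBlocks

/-! The count of integers with an admissible infinite parity word, and of real numbers `ξ` with
`⌊ξ (3/2)^n⌋` of constant parity. -/

set_option autoImplicit false

namespace Pool.Agent.P.MP_9a799e_nt.Z

/-- the orbit `G` of `g ↦ ⌈3 g / 2⌉` is shadowed by `u` in the unit interval -/
def Orb (G : ℕ → ℤ) (u : ℕ → ℝ) : Prop :=
  ∀ i, 0 ≤ u i ∧ u i ≤ 1 ∧ ((2 * G (i + 1) = 3 * G i ∧ u (i + 1) = 3 / 2 * u i) ∨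
    (2 * G (i + 1) = 3 * G i + 1 ∧ u (i + 1) = 3 / 2 * u i - 1))

/-- the bound for `u` in each state -/
noncomputable def UB : ℕ → ℝ
  | 0 => 1
  | 1 => 1 / 2
  | 2 => 3 / 4
  | 3 => 1 / 8
  | 4 => 3 / 16
  | 5 => 9 / 32
  | 6 => 27 / 64
  | _ => 81 / 128

theorem block {G : ℕ → ℤ} {u : ℕ → ℝ} (h : Orb G u) (l : ℕ) : ∀ t s, s < 8 → u t ≤ UB s →
    ∃ c ∈ C l s, 2 ^ l * G (t + l) = 3 ^ l * G t + c := by
  induction l with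
  | zero => intro t s _ _; exact ⟨0, by simp [C], by simp⟩
  | succ l ih =>
    intro t s hs hu
    obtain ⟨h0, h1, -⟩ := h (t + 1)
    rw [show t + (l + 1) = t + 1 + l by ring]
    obtain ⟨-, -, ⟨h2, h3⟩ | ⟨h2, h3⟩⟩ := h t
    · obtain ⟨c, hc, e⟩ := ih (t + 1) (nx s) (nx_lt hs) (by
        interval_cases s <;>
          simp only [show nx 0 = 0 from rfl, show nx 1 = 2 from rfl, show nx 2 = 0 from rfl,
            show nx 3 = 4 from rfl, show nx 4 = 5 from rfl, show nx 5 = 6 from rfl,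
            show nx 6 = 7 from rfl, show nx 7 = 0 from rfl, UB] at hu ⊢ <;> linarith)
      refine ⟨2 * c, Finset.mem_union_left _ (Finset.mem_image_of_mem _ hc), ?_⟩
      rw [pow_succ, pow_succ]
      linear_combination 2 * e + 3 ^ l * h2
    · have ho : ok s = true := by
        interval_cases s <;> simp only [UB] at hu <;> first | rfl | (exfalso; linarith)
      obtain ⟨c, hc, e⟩ := ih (t + 1) (s + 1) (ok_succ ho).2 (by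
        simp only [ok, Bool.or_eq_true, Nat.beq_eq] at ho
        rcases ho with rfl | rfl <;> simp only [UB] at hu ⊢ <;> linarith)
      refine ⟨3 ^ l + 2 * c, Finset.mem_union_right _ (by
        rw [if_pos ho]; exact Finset.mem_image_of_mem _ hc), ?_⟩
      rw [pow_succ, pow_succ]
      linear_combination 2 * e + 3 ^ l * h2

theorem F_ge (a : Finset ℤ × ℤ) (L : List (Finset ℤ × ℤ)) (φ : ℤ → ℕ) (c : ℤ) (hc : c ∈ a.1) :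
    F L (fun z => φ (a.2 * c + z)) ≤ F (a :: L) φ :=
  Finset.single_le_sum (f := fun c => F L fun z => φ (a.2 * c + z)) (fun _ _ => Nat.zero_le _) hc

theorem one_le_blocks {G : ℕ → ℤ} {u : ℕ → ℝ} (h : Orb G u) (n : ℕ) :
    1 ≤ F [(C (5 * n) 0, 2 ^ (5 * 0 * n) * 3 ^ ((5 * 4 + 8) * n)),
      (C (5 * n) 0, 2 ^ (5 * 1 * n) * 3 ^ ((5 * 3 + 8) * n)),
      (C (5 * n) 0, 2 ^ (5 * 2 * n) * 3 ^ ((5 * 2 + 8) * n)),
      (C (5 * n) 0, 2 ^ (5 * 3 * n) * 3 ^ ((5 * 1 + 8) * n)),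
      (C (5 * n) 0, 2 ^ (5 * 4 * n) * 3 ^ ((5 * 0 + 8) * n)),
      (C (8 * n) 0, 2 ^ (25 * n))] fun z => ind (2 ^ (33 * n)) (3 ^ (33 * n) * G 0 + z) := by
  have hb : ∀ l t, ∃ c ∈ C l 0, 2 ^ l * G (t + l) = 3 ^ l * G t + c :=
    fun l t => block h l t 0 (by norm_num) (h t).2.1
  obtain ⟨c0, m0, e0⟩ := hb (5 * n) 0
  obtain ⟨c1, m1, e1⟩ := hb (5 * n) (0 + 5 * n)
  obtain ⟨c2, m2, e2⟩ := hb (5 * n) (0 + 5 * n + 5 * n)
  obtain ⟨c3, m3, e3⟩ := hb (5 * n) (0 + 5 * n + 5 * n + 5 * n)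
  obtain ⟨c4, m4, e4⟩ := hb (5 * n) (0 + 5 * n + 5 * n + 5 * n + 5 * n)
  obtain ⟨c5, m5, e5⟩ := hb (8 * n) (0 + 5 * n + 5 * n + 5 * n + 5 * n + 5 * n)
  refine le_trans ?_ (F_ge _ _ _ c0 m0)
  refine le_trans ?_ (F_ge _ _ _ c1 m1)
  refine le_trans ?_ (F_ge _ _ _ c2 m2)
  refine le_trans ?_ (F_ge _ _ _ c3 m3)
  refine le_trans ?_ (F_ge _ _ _ c4 m4)
  refine le_trans ?_ (F_ge _ _ _ c5 m5)
  simp only [F, ind]
  rw [if_pos]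
  refine ⟨G (0 + 5 * n + 5 * n + 5 * n + 5 * n + 5 * n + 8 * n), ?_⟩
  push_cast
  simp only [mul_comm _ n, pow_mul] at *
  generalize (2 : ℤ) ^ n = x at *
  generalize (3 : ℤ) ^ n = y at *
  linear_combination -(y ^ 28 * e0 + x ^ 5 * y ^ 23 * e1 + x ^ 10 * y ^ 18 * e2 +
    x ^ 15 * y ^ 13 * e3 + x ^ 20 * y ^ 8 * e4 + x ^ 25 * e5)

theorem pairs_ge (h : ℕ) (T : Finset ℤ) (hT : ∀ g ∈ T, |g| ≤ h) (X : ℤ → ℤ → ℕ)
    (hX : ∀ a b, a - b ∈ T → 1 ≤ X a b) :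
    T.card * (h + 1) ≤ ∑ a ∈ Finset.Icc (0 : ℤ) (2 * h), ∑ b ∈ Finset.Icc (0 : ℤ) (2 * h),
      X a b := by
  rw [← Finset.sum_product']
  set f : ℤ × ℤ → ℤ × ℤ := fun x => (x.2 + max x.1 0, x.2 + max (-x.1) 0) with hf
  have hinj : Set.InjOn f ↑(T ×ˢ Finset.Icc (0 : ℤ) h) := by
    rintro ⟨g, i⟩ _ ⟨g', i'⟩ _ e
    simp only [hf, Prod.mk.injEq] at e ⊢
    omega
  have h1 : T.card * (h + 1) = ((T ×ˢ Finset.Icc (0 : ℤ) h).image f).card := by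
    rw [Finset.card_image_of_injOn hinj, Finset.card_product, Int.card_Icc]
    congr 1
  rw [h1, Finset.card_eq_sum_ones]
  refine le_trans (Finset.sum_le_sum (g := fun x => X x.1 x.2) fun x hx => ?_)
    (Finset.sum_le_sum_of_subset fun x hx => ?_)
  · obtain ⟨⟨g, i⟩, hy, rfl⟩ := Finset.mem_image.1 hx
    simp only [Finset.mem_product] at hy
    refine hX _ _ ?_
    have : (f (g, i)).1 - (f (g, i)).2 = g := by simp only [hf]; omega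
    rw [this]
    exact hy.1
  · obtain ⟨⟨g, i⟩, hy, rfl⟩ := Finset.mem_image.1 hx
    simp only [Finset.mem_product, Finset.mem_Icc] at hy ⊢
    have := abs_le.1 (hT g hy.1)
    simp only [hf]
    omega

theorem count_pow : ∀ᶠ n : ℕ in Filter.atTop, ∀ T : Finset ℤ,
    (∀ g ∈ T, |g| ≤ 2 ^ (25 * n) ∧ ∃ G u, Orb G u ∧ G 0 = g) →
    (T.card : ℝ) ≤ 2 * 10 ^ 6 * 2 ^ (13 * n) := by
  filter_upwards [blockX 0 4 rfl, blockX 1 3 rfl, blockX 2 2 rfl, blockX 3 1 rfl, blockX 4 0 rfl,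
    Filter.eventually_ge_atTop 1] with n b0 b1 b2 b3 b4 hn T hT
  have b5 := blockY n hn
  rw [← conv] at b0 b1 b2 b3 b4 b5
  have hH := holder (2 ^ (33 * n)) (Finset.Icc (0 : ℤ) (2 * (2 ^ (25 * n) : ℕ))) (3 ^ (33 * n))
    ![C (5 * n) 0, C (5 * n) 0, C (5 * n) 0, C (5 * n) 0, C (5 * n) 0, C (8 * n) 0]
    ![2 ^ (5 * 0 * n) * 3 ^ ((5 * 4 + 8) * n), 2 ^ (5 * 1 * n) * 3 ^ ((5 * 3 + 8) * n),
      2 ^ (5 * 2 * n) * 3 ^ ((5 * 2 + 8) * n), 2 ^ (5 * 3 * n) * 3 ^ ((5 * 1 + 8) * n),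
      2 ^ (5 * 4 * n) * 3 ^ ((5 * 0 + 8) * n), 2 ^ (25 * n)]
    ![10 * (15 / 4) ^ n, 10 * (15 / 4) ^ n, 10 * (15 / 4) ^ n, 10 * (15 / 4) ^ n,
      10 * (15 / 4) ^ n, 10 * 11 ^ n] (2 * 2 ^ (25 * n) + 1)
    (fun j => by fin_cases j <;> simp)
    (fun j => by
      fin_cases j
      exacts [b0, b1, b2, b3, b4, b5])
  have hL := pairs_ge (2 ^ (25 * n)) T (fun g hg => by exact_mod_cast (hT g hg).1)
    (fun a b => F [(C (5 * n) 0, 2 ^ (5 * 0 * n) * 3 ^ ((5 * 4 + 8) * n)),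
      (C (5 * n) 0, 2 ^ (5 * 1 * n) * 3 ^ ((5 * 3 + 8) * n)),
      (C (5 * n) 0, 2 ^ (5 * 2 * n) * 3 ^ ((5 * 2 + 8) * n)),
      (C (5 * n) 0, 2 ^ (5 * 3 * n) * 3 ^ ((5 * 1 + 8) * n)),
      (C (5 * n) 0, 2 ^ (5 * 4 * n) * 3 ^ ((5 * 0 + 8) * n)),
      (C (8 * n) 0, 2 ^ (25 * n))] fun z =>
        ind (2 ^ (33 * n)) (3 ^ (33 * n) * a + (-3 ^ (33 * n) * b + z)))
    (fun a b hab => by
      obtain ⟨-, G, u, hG, h0⟩ := hT _ hab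
      refine (one_le_blocks hG n).trans (le_of_eq ?_)
      congr 1
      funext z
      congr 1
      rw [h0]
      ring)
  have hL' : (T.card : ℝ) * (2 ^ (25 * n) + 1) ≤ _ := le_trans (by exact_mod_cast hL) hH
  simp only [Fin.prod_univ_six, Matrix.cons_val_zero, Matrix.cons_val_one, Matrix.cons_val] at hL'
  have hp : (0 : ℝ) < 2 ^ (25 * n) + 1 := by positivity
  refine le_of_mul_le_mul_right (hL'.trans ?_) hp
  have h1 : ((15 / 4 : ℝ) ^ 5 * 11) ^ n ≤ 2 ^ (13 * n) := by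
    rw [pow_mul]
    gcongr
    norm_num
  have h2 : (10 * (15 / 4) ^ n * (10 * (15 / 4) ^ n) * (10 * (15 / 4) ^ n) * (10 * (15 / 4) ^ n) *
      (10 * (15 / 4) ^ n) * (10 * 11 ^ n) : ℝ) = 10 ^ 6 * ((15 / 4 : ℝ) ^ 5 * 11) ^ n := by
    rw [mul_pow, ← pow_mul, mul_comm 5 n, pow_mul]
    ring
  rw [h2]
  calc _ ≤ (2 * (2 ^ (25 * n) + 1)) * (10 ^ 6 * 2 ^ (13 * n) : ℝ) := by
        gcongr
        linarith
    _ = _ := by ring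

theorem count_real : ∃ K : ℝ, ∀ X : ℝ, 1 ≤ X → ∀ T : Finset ℤ,
    (∀ g ∈ T, |(g : ℝ)| ≤ X ∧ ∃ G u, Orb G u ∧ G 0 = g) → (T.card : ℝ) ≤ K * X ^ (13 / 25 : ℝ) := by
  obtain ⟨n0, h⟩ := Filter.eventually_atTop.1 count_pow
  refine ⟨2 * 10 ^ 6 * 2 ^ (13 * (n0 + 1)), fun X hX T hT => ?_⟩
  obtain ⟨k, hk1, hk2⟩ := exists_nat_pow_near hX (by norm_num : (1 : ℝ) < 2 ^ 25)
  refine (h (k + (n0 + 1)) (by omega) T fun g hg => ⟨?_, (hT g hg).2⟩).trans ?_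
  · have : |(g : ℝ)| ≤ 2 ^ (25 * (k + (n0 + 1))) := by
      refine (hT g hg).1.trans (hk2.le.trans ?_)
      rw [← pow_mul]
      exact pow_le_pow_right₀ (by norm_num) (by omega)
    exact_mod_cast this
  · have h1 : (2 : ℝ) ^ (13 * k) ≤ X ^ (13 / 25 : ℝ) := by
      refine le_trans (le_of_eq ?_) (Real.rpow_le_rpow (by positivity) hk1 (by norm_num))
      rw [← pow_mul, ← Real.rpow_natCast, ← Real.rpow_natCast, ← Real.rpow_mul (by norm_num)]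
      congr 1
      push_cast
      ring
    rw [mul_add 13 k, pow_add 2 (13 * k), mul_comm (2 ^ (13 * k)), ← mul_assoc]
    gcongr

theorem traj (b : ℤ) : ∃ σ : ℝ, |σ| = 1 ∧ ∀ ξ : ℝ,
    (∀ n : ℕ, 1 ≤ n → ⌊ξ * (3 / 2) ^ n⌋ ≡ b [ZMOD 2]) →
    ∃ G : ℕ → ℤ, Orb G fun i => σ * (ξ * (3 / 2) ^ (i + 1)) - 2 * G i := by
  have key : ∀ (σ ξ : ℝ) (G : ℕ → ℤ), (∀ i, 0 ≤ σ * (ξ * (3 / 2) ^ (i + 1)) - 2 * G i ∧
      σ * (ξ * (3 / 2) ^ (i + 1)) - 2 * G i ≤ 1) →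
      (∀ i, σ * (ξ * (3 / 2) ^ (i + 1 + 1)) - 2 * G (i + 1) - 1 <
        3 / 2 * (σ * (ξ * (3 / 2) ^ (i + 1)) - 2 * G i)) →
      Orb G fun i => σ * (ξ * (3 / 2) ^ (i + 1)) - 2 * G i := by
    intro σ ξ G h1 h2 i
    refine ⟨(h1 i).1, (h1 i).2, ?_⟩
    have a1 := h1 i
    have a2 := h1 (i + 1)
    have a3 := h2 i
    beta_reduce
    rw [pow_succ _ (i + 1)] at a2 a3 ⊢
    have c1 : (-1 : ℝ) < ((2 * G (i + 1) - 3 * G i : ℤ) : ℝ) := by push_cast; linarith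
    have c2 : ((2 * G (i + 1) - 3 * G i : ℤ) : ℝ) < 2 := by push_cast; linarith
    have c3 : -1 < 2 * G (i + 1) - 3 * G i := by exact_mod_cast c1
    have c4 : 2 * G (i + 1) - 3 * G i < 2 := by exact_mod_cast c2
    by_cases hc : 2 * G (i + 1) = 3 * G i
    · have : 2 * (G (i + 1) : ℝ) = 3 * G i := by exact_mod_cast hc
      exact Or.inl ⟨hc, by linarith⟩
    · have hc' : 2 * G (i + 1) = 3 * G i + 1 := by omega
      have : 2 * (G (i + 1) : ℝ) = 3 * G i + 1 := by exact_mod_cast hc'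
      exact Or.inr ⟨hc', by linarith⟩
  rcases Int.emod_two_eq_zero_or_one b with hb | hb
  · refine ⟨1, abs_one, fun ξ h => ?_⟩
    have h1 : ∀ i : ℕ, ∃ g : ℤ, ⌊ξ * (3 / 2) ^ (i + 1)⌋ = 2 * g := fun i => by
      have := h (i + 1) (by omega)
      unfold Int.ModEq at this
      exact ⟨⌊ξ * (3 / 2) ^ (i + 1)⌋ / 2, by omega⟩
    choose G hG using h1
    have h2 : ∀ i, 0 ≤ 1 * (ξ * (3 / 2) ^ (i + 1)) - 2 * G i ∧
        1 * (ξ * (3 / 2) ^ (i + 1)) - 2 * G i < 1 := fun i => by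
      have := Int.floor_eq_iff.1 (hG i)
      push_cast at this
      constructor <;> linarith [this.1, this.2]
    exact ⟨G, key 1 ξ G (fun i => ⟨(h2 i).1, (h2 i).2.le⟩) fun i => by
      linarith [(h2 i).1, (h2 (i + 1)).2]⟩
  · refine ⟨-1, by simp, fun ξ h => ?_⟩
    have h1 : ∀ i : ℕ, ∃ g : ℤ, ⌊ξ * (3 / 2) ^ (i + 1)⌋ = -2 * g - 1 := fun i => by
      have := h (i + 1) (by omega)
      unfold Int.ModEq at this
      exact ⟨-(⌊ξ * (3 / 2) ^ (i + 1)⌋ + 1) / 2, by omega⟩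
    choose G hG using h1
    have h2 : ∀ i, 0 < -1 * (ξ * (3 / 2) ^ (i + 1)) - 2 * G i ∧
        -1 * (ξ * (3 / 2) ^ (i + 1)) - 2 * G i ≤ 1 := fun i => by
      have := Int.floor_eq_iff.1 (hG i)
      push_cast at this
      constructor <;> linarith [this.1, this.2]
    exact ⟨G, key (-1) ξ G (fun i => ⟨(h2 i).1.le, (h2 i).2⟩) fun i => by
      linarith [(h2 i).1, (h2 (i + 1)).2]⟩

theorem orb_unique {G G' : ℕ → ℤ} {u u' : ℕ → ℝ} (h : Orb G u) (h' : Orb G' u')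
    (h0 : G 0 = G' 0) (i : ℕ) : G i = G' i := by
  induction i with
  | zero => exact h0
  | succ i ih =>
    obtain ⟨-, -, ⟨a, -⟩ | ⟨a, -⟩⟩ := h i <;> obtain ⟨-, -, ⟨a', -⟩ | ⟨a', -⟩⟩ := h' i <;> omega

theorem main : ∃ K : ℝ, ∀ (b : ℤ) (x : ℝ), 1 ≤ x →
    {ξ : ℝ | |ξ| ≤ x ∧ ∀ n : ℕ, 1 ≤ n → ⌊ξ * (3 / 2) ^ n⌋ ≡ b [ZMOD 2]}.Finite ∧
    (({ξ : ℝ | |ξ| ≤ x ∧ ∀ n : ℕ, 1 ≤ n → ⌊ξ * (3 / 2) ^ n⌋ ≡ b [ZMOD 2]}.ncard : ℕ) : ℝ) ≤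
      K * x ^ (13 / 25 : ℝ) := by
  obtain ⟨K, hK⟩ := count_real
  refine ⟨K * 2 ^ (13 / 25 : ℝ), fun b x hx => ?_⟩
  obtain ⟨σ, hσ, ht⟩ := traj b
  set S := {ξ : ℝ | |ξ| ≤ x ∧ ∀ n : ℕ, 1 ≤ n → ⌊ξ * (3 / 2) ^ n⌋ ≡ b [ZMOD 2]}
  have h1 : ∀ ξ : ℝ, ∃ G : ℕ → ℤ, ξ ∈ S →
      Orb G fun i => σ * (ξ * (3 / 2) ^ (i + 1)) - 2 * G i := fun ξ => by
    by_cases h : ξ ∈ S
    · obtain ⟨G, hG⟩ := ht ξ h.2
      exact ⟨G, fun _ => hG⟩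
    · exact ⟨0, fun h' => absurd h' h⟩
  choose G hG using h1
  have hinj : Set.InjOn (fun ξ => G ξ 0) S := by
    intro ξ hξ ξ' hξ' e
    by_contra hne
    have hpos : 0 < |ξ - ξ'| := abs_pos.2 (sub_ne_zero.2 hne)
    obtain ⟨i, hi⟩ := pow_unbounded_of_one_lt (1 / |ξ - ξ'|) (by norm_num : (1 : ℝ) < 3 / 2)
    have e1 := orb_unique (hG ξ hξ) (hG ξ' hξ') e i
    obtain ⟨a1, a2, -⟩ := hG ξ hξ i
    obtain ⟨a3, a4, -⟩ := hG ξ' hξ' i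
    beta_reduce at a1 a2 a3 a4
    rw [e1] at a1 a2
    have a5 : |σ * ((ξ - ξ') * (3 / 2) ^ (i + 1))| ≤ 1 := by
      rw [abs_le]
      constructor <;> linarith
    have hp : (0 : ℝ) < (3 / 2) ^ i := by positivity
    rw [abs_mul, hσ, one_mul, abs_mul, abs_of_pos (by positivity : (0 : ℝ) < (3 / 2) ^ (i + 1)),
      pow_succ] at a5
    rw [div_lt_iff₀ hpos] at hi
    nlinarith
  have hsz : ∀ ξ ∈ S, |((G ξ 0 : ℤ) : ℝ)| ≤ 2 * x := fun ξ hξ => by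
    obtain ⟨a1, a2, -⟩ := hG ξ hξ 0
    beta_reduce at a1 a2
    have a3 : |σ * ξ| ≤ x := by rw [abs_mul, hσ, one_mul]; exact hξ.1
    rw [abs_le] at a3 ⊢
    norm_num at a1 a2
    constructor <;> nlinarith [a3.1, a3.2]
  have hfin : ((fun ξ => G ξ 0) '' S).Finite := by
    refine (Set.finite_Icc (-⌈2 * x⌉) ⌈2 * x⌉).subset ?_
    rintro _ ⟨ξ, hξ, rfl⟩
    have := abs_le.1 ((hsz ξ hξ).trans (Int.le_ceil _))
    exact ⟨by exact_mod_cast this.1, by exact_mod_cast this.2⟩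
  refine ⟨Set.Finite.of_finite_image hfin hinj, ?_⟩
  rw [← Set.ncard_image_of_injOn hinj, Set.ncard_eq_toFinset_card _ hfin, mul_assoc,
    ← Real.mul_rpow (by norm_num) (by linarith)]
  refine hK _ (by linarith) _ fun g hg => ?_
  obtain ⟨ξ, hξ, rfl⟩ := hfin.mem_toFinset.1 hg
  exact ⟨hsz ξ hξ, _, _, hG ξ hξ, rfl⟩

end Pool.Agent.P.MP_9a799e_nt.Z
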